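import Pool.Agent.J4.H24.BT.Dg

/-!
# Representations whose trace vanishes outside of an abelian normal subgroup of index two

They are induced from the subgroup; here this is expressed by the characters of the subgroup and by the
characteristic polynomials.
-/

set_option autoImplicit false
set_option linter.unusedSectionVars false

namespace Pool.Agent.J4.H54.QT

open Pool.Agent.J4.H24.BT (cM cM_mul cM_one Eig det_eig exists_eig)

section eig

variable {κ : Type} [Fintype κ] [DecidableEq κ]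

lemma trace_eig (b : Module.Basis κ ℂ (κ → ℂ)) {M : Matrix κ κ ℂ}
    {l : κ → ℂ} (h : ∀ i, Eig (b i) M (l i)) : M.trace = ∑ i, l i := by
  have h1 : LinearMap.toMatrix b b (Matrix.toLin' M) = Matrix.diagonal l := by
    ext i j
    rw [LinearMap.toMatrix_apply, Matrix.toLin'_apply, h j, map_smul]
    simp only [Module.Basis.repr_self, Finsupp.smul_apply, Finsupp.single_apply, smul_eq_mul,
      Matrix.diagonal_apply]
    by_cases hij : i = j
    · subst hij
      simp
    · rw [if_neg (fun h => hij h.symm), if_neg hij, mul_zero]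
  have h2 : LinearMap.trace ℂ (κ → ℂ) (Matrix.toLin' M) = M.trace := by
    rw [LinearMap.trace_eq_matrix_trace ℂ (Pi.basisFun ℂ κ), LinearMap.toMatrix_eq_toMatrix',
      LinearMap.toMatrix'_toLin']
  rw [← h2, LinearMap.trace_eq_matrix_trace ℂ b, h1, Matrix.trace_diagonal]

/-- the trace of an idempotent matrix is a natural number -/
lemma trace_idem {M : Matrix κ κ ℂ} (h : M * M = M) : ∃ r : ℕ, M.trace = r := by
  have h1 : IsIdempotentElem (Matrix.toLin' M) := by
    show Matrix.toLin' M * Matrix.toLin' M = _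
    rw [Module.End.mul_eq_comp, ← Matrix.toLin'_mul, h]
  have h2 := (LinearMap.IsIdempotentElem.isProj_range _ h1).trace
  have h3 : LinearMap.trace ℂ (κ → ℂ) (Matrix.toLin' M) = M.trace := by
    rw [LinearMap.trace_eq_matrix_trace ℂ (Pi.basisFun ℂ κ), LinearMap.toMatrix_eq_toMatrix',
      LinearMap.toMatrix'_toLin']
  exact ⟨_, h3.symm.trans h2⟩

end eig

section mult

variable {A : Type} [CommGroup A] [Finite A] {κ : Type} [Fintype κ] [DecidableEq κ]

/-- the number of the vectors with a given character -/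
noncomputable def mu (χ : κ → MulChar A ℂ) (c : MulChar A ℂ) : ℕ := Nat.card {j // χ j = c}

lemma mu_eq [DecidableEq (MulChar A ℂ)] (χ : κ → MulChar A ℂ) (c : MulChar A ℂ) :
    mu χ c = (Finset.univ.filter fun j => χ j = c).card := by
  unfold mu
  rw [Nat.card_eq_fintype_card, Fintype.card_subtype]

lemma prod_mu [Fintype (MulChar A ℂ)] (χ : κ → MulChar A ℂ) (z : MulChar A ℂ → ℂ) :
    ∏ j, z (χ j) = ∏ c, z c ^ mu χ c := by
  classical
  rw [← Finset.prod_fiberwise (s := Finset.univ) (g := χ)]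
  refine Finset.prod_congr rfl fun c _ => ?_
  rw [mu_eq, ← Finset.prod_const]
  refine Finset.prod_congr rfl fun j hj => ?_
  rw [(Finset.mem_filter.1 hj).2]

open Classical in
lemma sum_char [Fintype A] (c χ : MulChar A ℂ) :
    ∑ a, (c⁻¹ * χ) a = if χ = c then (Nat.card A : ℂ) else 0 := by
  split_ifs with h
  · subst h
    rw [inv_mul_cancel, MulChar.sum_one_eq_card_units, Nat.card_eq_fintype_card]
    norm_cast
    exact (Fintype.card_congr toUnits.toEquiv).symm
  · refine MulChar.sum_eq_zero_of_ne_one fun h1 => h ?_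
    exact (inv_mul_eq_one.1 h1).symm

/-- the multiplicity of a character, by the traces -/
lemma mu_trace [Fintype A] {T : A → Matrix κ κ ℂ} {b : Module.Basis κ ℂ (κ → ℂ)}
    {χ : κ → MulChar A ℂ} (hb : ∀ a j, Eig (b j) (T a) (χ j a)) (c : MulChar A ℂ) :
    ∑ a, c⁻¹ a * (T a).trace = Nat.card A * mu χ c := by
  classical
  have h1 : ∀ a, c⁻¹ a * (T a).trace = ∑ j, (c⁻¹ * χ j) a := by
    intro a
    rw [trace_eig b (hb a), Finset.mul_sum]
    rfl
  rw [Finset.sum_congr rfl fun a _ => h1 a, Finset.sum_comm,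
    Finset.sum_congr rfl fun j _ => sum_char c (χ j), mu_eq, ← Finset.sum_filter,
    Finset.sum_const, nsmul_eq_mul, mul_comm]

/-- two representations with proportional traces -/
lemma mu_congr {T T' : A → Matrix κ κ ℂ} {b b' : Module.Basis κ ℂ (κ → ℂ)}
    {χ χ' : κ → MulChar A ℂ} (hb : ∀ a j, Eig (b j) (T a) (χ j a))
    (hb' : ∀ a j, Eig (b' j) (T' a) (χ' j a)) {c c' : MulChar A ℂ} (e : A ≃ A)
    (h : ∀ a, c⁻¹ (e a) * (T (e a)).trace = c'⁻¹ a * (T' a).trace) : mu χ c = mu χ' c' := by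
  classical
  have : Fintype A := Fintype.ofFinite A
  have h1 := mu_trace hb c
  have h2 := mu_trace hb' c'
  rw [← e.sum_comp, Finset.sum_congr rfl fun a _ => h a, h2] at h1
  have h3 : (Nat.card A : ℂ) ≠ 0 := by exact_mod_cast Nat.card_pos.ne'
  exact_mod_cast (mul_left_cancel₀ h3 h1).symm

end mult

section comb

/-- a half of a function that is invariant under an involution -/
lemma exists_half {X : Type} [Finite X] (tw : X → X) (htw : ∀ c, tw (tw c) = c) (m : X → ℕ)
    (hm : ∀ c, m (tw c) = m c) (he : ∀ c, tw c = c → Even (m c)) :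
    ∃ k : X → ℕ, ∀ c, k c + k (tw c) = m c := by
  classical
  obtain ⟨N, ⟨r⟩⟩ := Finite.exists_equiv_fin X
  refine ⟨fun c => if tw c = c then m c / 2 else if r c < r (tw c) then m c else 0, fun c => ?_⟩
  simp only
  by_cases h : tw c = c
  · rw [if_pos h, if_pos (by rw [h, h]), h]
    obtain ⟨q, hq⟩ := he c h
    omega
  · have h2 : tw (tw c) ≠ tw c := by
      rw [htw]
      exact fun h' => h h'.symm
    rw [if_neg h, if_neg h2, htw, hm]
    have h3 : r c ≠ r (tw c) := fun h' => h (r.injective h').symm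
    rcases lt_or_gt_of_ne h3 with h4 | h4
    · rw [if_pos h4, if_neg (not_lt.2 h4.le), add_zero]
    · rw [if_neg (not_lt.2 h4.le), if_pos h4, zero_add]

end comb

section ind

/-- an abelian normal subgroup of index two -/
structure Ix {A U : Type} [CommGroup A] [Group U] (j : A →* U) (t : U) (e : A ≃* A) (s : A) :
    Prop where
  inj : Function.Injective j
  out : ∀ a, j a ≠ t
  cov : ∀ u : U, (∃ a, u = j a) ∨ ∃ a, u = j a * t
  conj : ∀ a, t * j a * t⁻¹ = j (e a)
  sq : t * t = j s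

variable {A U : Type} [CommGroup A] [Finite A] [Group U] {j : A →* U} {t : U} {e : A ≃* A} {s : A}

lemma Ix.invol (I : Ix j t e s) (a : A) : e (e a) = a := by
  apply I.inj
  rw [← I.conj, ← I.conj]
  have h1 : t * (t * j a * t⁻¹) * t⁻¹ = (t * t) * j a * (t * t)⁻¹ := by group
  rw [h1, I.sq, ← map_inv, ← map_mul, ← map_mul, mul_comm s a, mul_inv_cancel_right]

/-- the conjugate character -/
noncomputable def tw (e : A ≃* A) (c : MulChar A ℂ) : MulChar A ℂ :=
  { toMonoidHom := c.toMonoidHom.comp e.toMonoidHom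
    map_nonunit' := fun a ha => absurd (Group.isUnit a) ha }

lemma tw_apply (c : MulChar A ℂ) (a : A) : tw e c a = c (e a) := rfl

lemma Ix.tw_tw (I : Ix j t e s) (c : MulChar A ℂ) : tw e (tw e c) = c := by
  ext a
  rw [tw_apply, tw_apply, I.invol]

lemma inv_tw (c : MulChar A ℂ) : (tw e c)⁻¹ = tw e c⁻¹ := by
  rw [inv_eq_iff_mul_eq_one]
  ext a
  rw [MulChar.mul_apply, tw_apply, tw_apply, ← MulChar.mul_apply, mul_inv_cancel]
  rw [MulChar.one_apply_coe]
  have : (e (a : A)) = ((toUnits (e (a : A)) : Aˣ) : A) := rfl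
  rw [this, MulChar.one_apply_coe]

variable {κ : Type} [Fintype κ] [DecidableEq κ] (ρ : U →* GL κ ℂ)

lemma tr_conj (u v : U) : (cM (ρ (u * v * u⁻¹))).trace = (cM (ρ v)).trace := by
  rw [map_mul, map_mul, cM_mul, cM_mul, Matrix.trace_mul_comm, ← Matrix.mul_assoc, ← cM_mul,
    ← map_mul, inv_mul_cancel, map_one, cM_one, Matrix.one_mul]

variable {ρ} {b : Module.Basis κ ℂ (κ → ℂ)} {χ : κ → MulChar A ℂ}

lemma Ix.mu_tw (I : Ix j t e s) (hb : ∀ a i, Eig (b i) (cM (ρ (j a))) (χ i a)) (c : MulChar A ℂ) :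
    mu χ (tw e c) = mu χ c := by
  refine (mu_congr hb hb e.toEquiv fun a => ?_).symm
  show c⁻¹ (e a) * (cM (ρ (j (e a)))).trace = _
  rw [← I.conj, tr_conj, inv_tw, tw_apply]

/-- the multiplicity of an invariant character is even -/
lemma Ix.mu_even (I : Ix j t e s) (hb : ∀ a i, Eig (b i) (cM (ρ (j a))) (χ i a))
    (h0 : ∀ a, (cM (ρ (t * j a))).trace = 0) {c : MulChar A ℂ} (hc : tw e c = c) :
    Even (mu χ c) := by
  classical
  have : Fintype A := Fintype.ofFinite A
  have hA : (Nat.card A : ℂ) ≠ 0 := by exact_mod_cast Nat.card_pos.ne'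
  set T : Matrix κ κ ℂ := cM (ρ t) with hT
  set E : Matrix κ κ ℂ := (Nat.card A : ℂ)⁻¹ • ∑ a, c⁻¹ a • cM (ρ (j a)) with hE
  have hcc : ∀ a : A, c a * c⁻¹ a = 1 := by
    intro a
    rw [← MulChar.mul_apply, mul_inv_cancel]
    have : a = ((toUnits a : Aˣ) : A) := rfl
    rw [this, MulChar.one_apply_coe]
  have h1 : ∀ a, cM (ρ (j a)) * E = c a • E := by
    intro a
    rw [hE, Matrix.mul_smul, Matrix.mul_sum, smul_comm]
    congr 1
    rw [← Equiv.sum_comp (Equiv.mulLeft a) (fun x => c⁻¹ x • cM (ρ (j x))), Finset.smul_sum]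
    refine Finset.sum_congr rfl fun x _ => ?_
    have h0 : c a * c⁻¹ (a * x) = c⁻¹ x := by rw [map_mul, ← mul_assoc, hcc, one_mul]
    rw [Matrix.mul_smul, ← cM_mul, ← map_mul, ← map_mul, smul_smul]
    show c⁻¹ x • cM (ρ (j (a * x))) = (c a * c⁻¹ (a * x)) • cM (ρ (j (a * x)))
    rw [h0]
  have h2 : E * E = E := by
    conv_lhs => rw [hE]
    rw [Matrix.smul_mul, Matrix.sum_mul]
    have h3 : ∀ a ∈ (Finset.univ : Finset A), c⁻¹ a • cM (ρ (j a)) * E = E := by
      intro a _
      rw [Matrix.smul_mul, h1, smul_smul, mul_comm, hcc, one_smul]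
    rw [Finset.sum_congr rfl h3, Finset.sum_const, Finset.card_univ, ← Nat.card_eq_fintype_card,
      ← Nat.cast_smul_eq_nsmul ℂ, smul_smul, inv_mul_cancel₀ hA, one_smul]
  have h3 : T * E = E * T := by
    rw [hE, Matrix.mul_smul, Matrix.smul_mul, Matrix.mul_sum, Matrix.sum_mul]
    congr 1
    have h5 : ∀ a, T * (c⁻¹ a • cM (ρ (j a))) = c⁻¹ (e a) • cM (ρ (j (e a))) * T := by
      intro a
      have h4 : c⁻¹ (e a) = c⁻¹ a := by
        rw [← tw_apply, ← inv_tw, hc]
      rw [h4, Matrix.mul_smul, Matrix.smul_mul, hT, ← cM_mul, ← cM_mul, ← map_mul, ← map_mul,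
        ← I.conj, inv_mul_cancel_right]
    rw [Finset.sum_congr rfl fun a _ => h5 a]
    exact e.toEquiv.sum_comp (fun x => c⁻¹ x • cM (ρ (j x)) * T)
  have h4 : E.trace = mu χ c := by
    rw [hE, Matrix.trace_smul, Matrix.trace_sum]
    have h5 := mu_trace hb c
    have h6 : ∀ a ∈ (Finset.univ : Finset A), (c⁻¹ a • cM (ρ (j a))).trace =
        c⁻¹ a * (cM (ρ (j a))).trace := fun a _ => by rw [Matrix.trace_smul, smul_eq_mul]
    rw [Finset.sum_congr rfl h6, h5, smul_eq_mul, inv_mul_cancel_left₀ hA]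
  have h5 : (T * E).trace = 0 := by
    rw [hE, Matrix.mul_smul, Matrix.trace_smul, Matrix.mul_sum, Matrix.trace_sum]
    rw [Finset.sum_eq_zero, smul_zero]
    intro a _
    rw [Matrix.mul_smul, Matrix.trace_smul, hT, ← cM_mul, ← map_mul, h0, smul_zero]
  have h6 : (T * E) * (T * E) = c s • E := by
    calc (T * E) * (T * E) = T * (E * T) * E := by simp only [Matrix.mul_assoc]
      _ = (T * T) * (E * E) := by rw [← h3]; simp only [Matrix.mul_assoc]
      _ = c s • E := by rw [h2, hT, ← cM_mul, ← map_mul, I.sq, h1]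
  clear_value E
  obtain ⟨l, hl⟩ := IsAlgClosed.exists_pow_nat_eq (c s) (n := 2) (by norm_num)
  have hl0 : l ≠ 0 := by
    rintro rfl
    have := hcc s
    rw [← hl] at this
    simp at this
  set P : Matrix κ κ ℂ := (2 : ℂ)⁻¹ • (E + l⁻¹ • (T * E)) with hP
  have h7 : P * P = P := by
    have h8 : E * (T * E) = T * E := by rw [← Matrix.mul_assoc, ← h3, Matrix.mul_assoc, h2]
    have h9 : (T * E) * E = T * E := by rw [Matrix.mul_assoc, h2]
    have h10 : (E + l⁻¹ • (T * E)) * (E + l⁻¹ • (T * E)) = (2 : ℂ) • (E + l⁻¹ • (T * E)) := by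
      rw [Matrix.add_mul, Matrix.mul_add, Matrix.mul_add, h2, Matrix.mul_smul, h8, Matrix.smul_mul,
        h9, Matrix.smul_mul, Matrix.mul_smul, h6, smul_smul, smul_smul, ← hl]
      have h11 : l⁻¹ * l⁻¹ * l ^ 2 = 1 := by field_simp
      rw [h11, one_smul, two_smul]
      abel
    rw [hP, Matrix.smul_mul, Matrix.mul_smul, h10, smul_smul, smul_smul]
    norm_num
  obtain ⟨r, hr⟩ := trace_idem h7
  have h8 : (mu χ c : ℂ) = 2 * r := by
    rw [← hr, hP, Matrix.trace_smul, Matrix.trace_add, Matrix.trace_smul, h5, h4, smul_zero,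
      add_zero, smul_eq_mul]
    ring
  refine ⟨r, ?_⟩
  have h9 : mu χ c = 2 * r := by exact_mod_cast h8
  omega

/-- **the characters of the induced representation** -/
theorem Ix.exists_chars (I : Ix j t e s) (hb : ∀ a i, Eig (b i) (cM (ρ (j a))) (χ i a))
    (h0 : ∀ a, (cM (ρ (t * j a))).trace = 0) :
    ∃ (κ' : Type) (_ : Fintype κ') (c : κ' → MulChar A ℂ), ∀ z : MulChar A ℂ → ℂ,
      (∏ i, z (c i)) * ∏ i, z (tw e (c i)) = ∏ i, z (χ i) := by
  classical
  have hf : Finite (MulChar A ℂ) := inferInstance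
  have : Fintype (MulChar A ℂ) := Fintype.ofFinite _
  obtain ⟨k, hk⟩ := exists_half (tw e) I.tw_tw (mu χ) (I.mu_tw hb) fun c hc => I.mu_even hb h0 hc
  refine ⟨Σ c : MulChar A ℂ, Fin (k c), inferInstance, fun x => x.1, fun z => ?_⟩
  have h1 : ∀ y : MulChar A ℂ → ℂ, ∏ i : (Σ c : MulChar A ℂ, Fin (k c)), y i.1 =
      ∏ c, y c ^ k c := by
    intro y
    rw [Fintype.prod_sigma]
    refine Finset.prod_congr rfl fun c _ => ?_
    simp
  rw [h1 z, h1 (fun c => z (tw e c))]
  have h2 : ∏ c, z (tw e c) ^ k c = ∏ c, z c ^ k (tw e c) := by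
    refine Fintype.prod_equiv (Function.Involutive.toPerm (tw e) I.tw_tw) _ _ fun c => ?_
    show _ = z (tw e c) ^ k (tw e (tw e c))
    rw [I.tw_tw]
  rw [h2, ← Finset.prod_mul_distrib, prod_mu]
  refine Finset.prod_congr rfl fun c _ => ?_
  rw [← pow_add, hk]

end ind

end Pool.Agent.J4.H54.QT
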