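import Pool.Agent.J4.H54.QT.Fac

/-!
# The `L`-function of `V_f ⊗ V`
-/

set_option autoImplicit false
set_option linter.unusedSectionVars false

namespace Pool.Agent.J4.H54.QT

open NumberField IsDedekindDomain

open scoped Pointwise

open Pool.Agent.Y696 Pool.Agent.W192.HK Pool.Agent.TH936.CM Pool.Agent.TH936.PU

open Pool.Agent.R430 (DatI xI xI_pos xI_neg prime_cop_iff)

open Pool.Agent.R431.B hiding frobM euler frobM_single cM cM_mul cM_one Eig det_eig exists_eig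
  lin_sandwich quad_fac cM_inv cM_inv' euler_place EF EF_diff euler_EF frobM_conj det_sandwich
  quad_sandwich frob_avg frobEquiv Eig.one Eig.sub Eig.smul Eig.mul Eig.add Eig.pow Eig.sum
  v_EF an_main

open Pool.Agent.J4.H24.BT (cM cM_mul cM_one Eig det_eig exists_eig frobM euler frobM_single
  lin_sandwich quad_fac cM_inv cM_inv' euler_place EF EF_diff)

section psi

variable {Γ : Type} [LinearOrderedCommGroupWithZero Γ]

/-- the value of the Hecke character at a prime modulo which two is not a cube -/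
lemma v_psi' {P : HeightOneSpectrum eis} (h2 : IsCoprime (gP P) 2) (h3 : IsCoprime (gP P) 3)
    (hcube : ∀ x : eis, x ^ 3 - 2 ∉ P.asIdeal) :
    ∃ π : eis, psi P.asIdeal = π ∧ IsCoprime π 2 ∧
      ∀ v : Valuation ℂ Γ, v 2 < 1 → v ((π : ℂ) - 1) = 1 := by
  have hI : IsCoprime P.asIdeal (sp 3) := by
    rw [gP_span, Ideal.isCoprime_span_singleton_iff]
    exact h3
  obtain ⟨π, hπ1, hπ2⟩ := exists_prim hI
  have hpsi : psi P.asIdeal = π := by rw [hπ1]; exact psi_prim hπ2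
  have has : sp π = sp (gP P) := by rw [← hπ1, ← gP_span]
  obtain ⟨w, hw⟩ := Ideal.span_singleton_eq_span_singleton.1 has
  refine ⟨π, hpsi, ?_, ?_⟩
  · rw [← hw] at h2
    exact h2.of_mul_left_left
  · intro v hv
    have h4 := v_gP hv P h2 h3 hcube
    have h5 : ee psi π = 1 := by
      rw [eo.per π 1 hπ2, ee_u isUnit_one]
      rfl
    rw [← hw, eo.mul, h5, ee_u w.isUnit, one_mul] at h4
    push_cast at h4
    have h6 : (π : ℂ) * ((w : eis) : ℂ) - ((w : eis) : ℂ) = ((w : eis) : ℂ) * ((π : ℂ) - 1) := by ring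
    rw [h6, map_mul, v_unit w.isUnit, one_mul] at h4
    exact h4

lemma cop_nat {p q : ℕ} (h : p.Coprime q) : IsCoprime (p : eis) (q : eis) := by
  have h1 := (Nat.isCoprime_iff_coprime.2 h).map (Int.castRingHom eis)
  simpa using h1

/-- the value at one of a ramified factor -/
lemma w_EF {F : Type} [Field F] [NumberField F] [IsCyclotomicExtension {3} ℚ F] {e0 : 𝓞 F ≃+* eis} {n : ℕ} (hn : Nc n) {p : ℕ}
    (hp : p.Prime) (hpn : p ∣ n) {P : HeightOneSpectrum eis} (hP : (p : eis) ∈ P.asIdeal)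
    {κ : Type} [Fintype κ] {l : κ → ℂ} {k : ℕ} (hl : ∀ j, l j = 0 ∨ l j ^ 2 ^ k = 1)
    {w : Valuation ℂ Γ} (hw : w 2 < 1) : w (EF l p 1) = 1 := by
  have h1 : p % 3 = 1 := hn.mod hp hpn
  obtain ⟨π, hπ, hπ1, hN, hψ, -⟩ := over_mod1 hp hP h1
  have hp2 : p ≠ 2 := by rintro rfl; norm_num at h1
  have hp3 : p ≠ 3 := by rintro rfl; norm_num at h1
  have hc2 : IsCoprime (gP P) 2 := by
    refine cop_dvd hP ?_
    exact_mod_cast cop_nat ((Nat.coprime_primes hp Nat.prime_two).2 hp2)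
  have hc3 : IsCoprime (gP P) 3 := by
    refine cop_dvd hP ?_
    exact_mod_cast cop_nat ((Nat.coprime_primes hp Nat.prime_three).2 hp3)
  have hcube : ∀ x : eis, x ^ 3 - 2 ∉ P.asIdeal := by
    intro x hx
    let v₀ : HeightOneSpectrum (𝓞 F) :=
      { asIdeal := P.asIdeal.comap (e0 : 𝓞 F →+* eis)
        isPrime := inferInstance
        ne_bot := by
          intro h
          have h5 : e0.symm (p : eis) ∈ P.asIdeal.comap (e0 : 𝓞 F →+* eis) := by
            rw [Ideal.mem_comap]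
            show e0 (e0.symm (p : eis)) ∈ P.asIdeal
            rw [e0.apply_symm_apply]
            exact hP
          rw [h, Ideal.mem_bot, map_natCast] at h5
          exact hp.ne_zero (by exact_mod_cast h5) }
    have h5 : (n : 𝓞 F) ∈ v₀.asIdeal := by
      show e0 (n : 𝓞 F) ∈ P.asIdeal
      rw [map_natCast]
      obtain ⟨k, rfl⟩ := hpn
      rw [Nat.cast_mul]
      exact P.asIdeal.mul_mem_right _ hP
    apply hn.cube v₀ h5 (e0.symm x)
    show e0 ((e0.symm x) ^ 3 - 2) ∈ P.asIdeal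
    rw [map_sub, map_pow, e0.apply_symm_apply, map_ofNat]
    exact hx
  obtain ⟨π', hψ2, hcop, hval⟩ := v_psi' (Γ := Γ) hc2 hc3 hcube
  have hππ : π' = π := coe_inj' (hψ2.symm.trans hψ)
  rw [hππ] at hcop hval
  have k1 := hval w hw
  have k2 := hval (vc w) (vc_two hw)
  rw [vc_apply, map_sub, map_one] at k2
  have k3 : w (π : ℂ) = 1 := v_cop hw hcop
  have k4 := v_cop (vc_two hw) hcop
  rw [vc_apply] at k4
  have hpc : (p : ℂ) = (π : ℂ) * (starRingEnd ℂ) (π : ℂ) := by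
    have h2 := congrArg (fun t : eis => (t : ℂ)) hN
    push_cast at h2
    rw [cj_coe] at h2
    exact h2.symm
  have ha : ((((p : ℤ) - pts (E27 ℤ) (ZMod p) : ℤ) : ℂ)) = (π : ℂ) + (starRingEnd ℂ) (π : ℂ) := by
    push_cast
    rw [pts_mod1 hp h1 hP hπ hπ1 hN]
    ring
  unfold Pool.Agent.J4.H24.BT.EF
  rw [map_prod]
  refine Finset.prod_eq_one fun j _ => ?_
  have hlj : l j = 0 ∨ w (l j - 1) < 1 := by
    rcases hl j with h | h
    · exact Or.inl h
    · exact Or.inr (v_root hw k _ h)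
  have h2 := v_ram k1 k2 k3 k4 hlj hpc
  rw [cpow_quad hp, Complex.cpow_neg_one, ha]
  exact h2

end psi

section main

variable {F N K : Type} [Field F] [NumberField F] [IsCyclotomicExtension {3} ℚ F] [Field N]
  [NumberField N] [Algebra F N] [Field K] [NumberField K] [Algebra N K] [Algebra F K]
  [IsScalarTower F N K] [IsGalois F N] [IsGalois ℚ K] {e0 : 𝓞 F ≃+* eis} {ι : eis →+* 𝓞 N}
  {A : Type} [CommGroup A] [Finite A] [MulSemiringAction A (𝓞 K)] {j : A →* (K ≃ₐ[F] K)}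
  {t : K ≃ₐ[F] K} {e : A ≃* A} {s : A} {n : ℕ} {Φ : Ideal (𝓞 N) → A}
  {κ' : Type} [Fintype κ']
  {κ : Type} [Fintype κ] [DecidableEq κ] {ρ : (K ≃ₐ[ℚ] K) →* GL κ ℂ}
  {b : Module.Basis κ ℂ (κ → ℂ)} {χ : κ → MulChar A ℂ} {c : κ' → MulChar A ℂ}

lemma Rp.card (R : Rp j e ρ b χ c) : Fintype.card κ = 2 * Fintype.card κ' := by
  have h1 := R.ch fun _ => 2
  rw [Finset.prod_const, Finset.prod_const, Finset.card_univ, Finset.card_univ, ← pow_add] at h1
  have h2 : (2 : ℕ) ^ (Fintype.card κ' + Fintype.card κ') = 2 ^ Fintype.card κ := by exact_mod_cast h1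
  have h3 := Nat.pow_right_injective le_rfl h2
  omega

/-- **the `L`-function** -/
theorem an_main (T : Twr j t e s n Φ) (hι : ∀ y : 𝓞 F, ι (e0 y) = algebraMap (𝓞 F) (𝓞 N) y)
    (h2 : Module.finrank F N = 2) (R : Rp j e ρ b χ c) (hn : Nc n) {k : ℕ}
    (hcard : Nat.card (K ≃ₐ[F] K) = 2 ^ k) (B : κ' → ℂ → ℂ) (hBd : ∀ i, Differentiable ℂ (B i))
    (hBp : ∀ i s', 3 / 2 < s'.re →
      HasProd (fun P : HeightOneSpectrum (𝓞 N) => HH ι P (xI n Φ (c i) P.asIdeal) s') (B i s'))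
    (hBv : ∀ i (Λ : PeriodPair) (Ω : ℂ), Cur Λ Ω → ∀ (Γ : Type)
      [LinearOrderedCommGroupWithZero Γ] (w : Valuation ℂ Γ), w 2 < 1 →
        w (B i 1) = w ((starRingEnd ℂ) Ω) ^ 2) :
    ∃ L : ℂ → ℂ, MeromorphicOn L Set.univ ∧
      (∀ V : Nat.Primes → HeightOneSpectrum (𝓞 K),
        (∀ p : Nat.Primes, ((p : ℕ) : 𝓞 K) ∈ (V p).asIdeal) → ∀ s : ℂ, 3 / 2 < s.re →
        HasProd (fun p : Nat.Primes => euler ρ (E27 ℤ) (V p) s p) (L s)) ∧
      AnalyticAt ℂ L 1 ∧ L 1 ≠ 0 ∧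
      ∀ (Λ : PeriodPair) (Ω : ℂ), Cur Λ Ω → ((starRingEnd ℂ) Ω) ^ 6 = Ω ^ 6 →
        ∀ (Γ : Type) [LinearOrderedCommGroupWithZero Γ] (w : Valuation ℂ Γ), w 2 < 1 →
          w (L 1) = w Ω ^ Fintype.card κ := by
  classical
  have hn0 : n ≠ 0 := by
    rintro rfl
    exact hn 2 Nat.prime_two (dvd_zero 2) 0 (by decide)
  -- the primes that divide `n`
  have hSfin : {p : Nat.Primes | (p : ℕ) ∣ n}.Finite := by
    have h1 : {q : ℕ | q ∣ n}.Finite := (Nat.divisors n).finite_toSet.subset fun q hq =>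
      Finset.mem_coe.2 (Nat.mem_divisors.2 ⟨hq, hn0⟩)
    exact Set.Finite.preimage (f := fun p : Nat.Primes => (p : ℕ))
      (Set.injOn_of_injective (fun a b h => Subtype.ext h)) h1
  let S : Finset Nat.Primes := hSfin.toFinset
  have hS : ∀ p : Nat.Primes, p ∈ S ↔ (p : ℕ) ∣ n := fun p => by
    rw [Set.Finite.mem_toFinset]
    exact Iff.rfl
  have hpl := fun p : Nat.Primes => exists_place (K := K) p.2
  choose V₀ hV₀ using hpl
  have hl0 : ∀ p : Nat.Primes, ∃ l : κ → ℂ, (p : ℕ) ∣ n →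
      (∀ s, euler ρ (E27 ℤ) (V₀ p) s p = (EF l p s)⁻¹) ∧ ∀ i, l i = 0 ∨ l i ^ 2 ^ k = 1 := by
    intro p
    by_cases h : (p : ℕ) ∣ n
    · obtain ⟨l, h1, h2⟩ := euler_bad (F := F) ρ p.2 (hn.mod p.2 h) (hV₀ p)
      refine ⟨l, fun _ => ⟨h1, fun i => ?_⟩⟩
      rw [← hcard]
      exact h2 i
    · exact ⟨fun _ => 0, fun h' => absurd h' h⟩
  choose l hl using hl0
  set L : ℂ → ℂ := fun s => (∏ p ∈ S, (EF (l p) p s)⁻¹) * ∏ i, B i s with hLdef
  have hent : Differentiable ℂ (fun s => ∏ i, B i s) :=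
    Differentiable.fun_finsetProd fun i _ => hBd i
  have hwE : ∀ (Γ : Type) [LinearOrderedCommGroupWithZero Γ] (w : Valuation ℂ Γ), w 2 < 1 →
      ∀ p ∈ S, w (EF (l p) p 1) = 1 := by
    intro Γ _ w hw p hp
    have hpn := (hS p).1 hp
    have hP : ((p : ℕ) : eis) ∈ (bel ((algebraMap (𝓞 N) (𝓞 K)).comp ι) (V₀ p)).asIdeal :=
      (mem_bel_nat (V₀ p) p).2 (hV₀ p)
    exact w_EF (e0 := e0) hn p.2 hpn hP (hl p hpn).2 hw
  have hval : ∀ (Λ : PeriodPair) (Ω : ℂ), Cur Λ Ω → ((starRingEnd ℂ) Ω) ^ 6 = Ω ^ 6 →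
        ∀ (Γ : Type) [LinearOrderedCommGroupWithZero Γ] (w : Valuation ℂ Γ), w 2 < 1 →
          w (L 1) = w Ω ^ Fintype.card κ := by
    intro Λ Ω hC hΩ Γ _ w hw
    rw [hLdef]
    show w ((∏ p ∈ S, (EF (l p) p 1)⁻¹) * ∏ i, B i 1) = _
    rw [map_mul, map_prod, map_prod]
    have h1 : ∀ p ∈ S, w ((EF (l p) p 1)⁻¹) = 1 := by
      intro p hp
      rw [map_inv₀, hwE Γ w hw p hp, inv_one]
    have h4 : w ((starRingEnd ℂ) Ω) = w Ω := v_six_eq hΩ
    have h2 : ∀ i, w (B i 1) = w Ω ^ 2 := by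
      intro i
      rw [hBv i Λ Ω hC Γ w hw, h4]
    rw [Finset.prod_eq_one h1, one_mul, Finset.prod_congr rfl fun j _ => h2 j, Finset.prod_const,
      Finset.card_univ, ← pow_mul, R.card]
  obtain ⟨U, hU⟩ := exists_over_two
  have hUG : ∀ p ∈ S, EF (l p) p 1 ≠ 0 := by
    intro p hp h0
    have := hwE _ U.valuation hU p hp
    rw [h0, map_zero] at this
    exact zero_ne_one this
  refine ⟨L, ?_, ?_, ?_, ?_, hval⟩
  · have h1 : MeromorphicOn (fun s => ∏ p ∈ S, (EF (l p) p s)⁻¹) Set.univ := by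
      intro z _
      refine MeromorphicAt.fun_prod fun p _ => ?_
      exact ((EF_diff (l p) p.2).analyticAt z).meromorphicAt.inv
    intro z hz
    exact (h1 z hz).mul ((hent.analyticAt z).meromorphicAt)
  · intro V hV s' hs
    have h2' := hasProd_fib (ZZ_prod (c := c) (B := fun i => B i s') fun i => hBp i s' hs)
    have h4 : HasProd (fun p : Nat.Primes => if p ∈ S then (EF (l p) p s')⁻¹ else 1)
        (∏ p ∈ S, (EF (l p) p s')⁻¹) := by
      have h6 := hasProd_prod_of_ne_finset_one (L := .unconditional _) (s := S)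
        (f := fun p : Nat.Primes => if p ∈ S then (EF (l p) p s')⁻¹ else 1)
        (fun p hp => if_neg hp)
      rw [Finset.prod_congr rfl (fun p hp => if_pos hp)] at h6
      exact h6
    refine (h4.mul h2').congr_fun fun p => ?_
    by_cases hp : p ∈ S
    · have hpn := (hS p).1 hp
      rw [if_pos hp, factorn hpn, mul_one, ← (hl p hpn).1 s']
      exact euler_place ρ p.2 (hV₀ p) (hV p) _ s'
    · rw [if_neg hp, one_mul]
      have hpn : ¬ (p : ℕ) ∣ n := fun h => hp ((hS p).2 h)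
      have hcv : ∀ w : HeightOneSpectrum (𝓞 K), ((p : ℕ) : 𝓞 K) ∈ w.asIdeal →
          (n : 𝓞 K) ∉ w.asIdeal := fun w hw =>
        not_mem_of_coprime ((Nat.Prime.coprime_iff_not_dvd p.2).2 hpn) hw
      have h5 : (p : ℕ) % 3 < 3 := Nat.mod_lt _ (by norm_num)
      rcases (show (p : ℕ) % 3 = 0 ∨ (p : ℕ) % 3 = 1 ∨ (p : ℕ) % 3 = 2 by omega) with h | h | h
      · have h3 : (p : ℕ) = 3 := ((Nat.prime_dvd_prime_iff_eq Nat.prime_three p.2).1
          (Nat.dvd_of_mod_eq_zero h)).symm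
        rw [h3]
        exact (factor3 (V p) s').symm
      · exact (factor1 T hι h2 R p.2 (hV p) h hcv s').symm
      · exact (factor2 T hι h2 R p.2 (hV p) h (hcv _ (hV p)) s').symm
  · refine AnalyticAt.mul ?_ (hent.analyticAt 1)
    refine Finset.analyticAt_fun_prod _ fun p hp => ?_
    exact ((EF_diff (l p) p.2).analyticAt 1).inv (hUG p hp)
  · obtain ⟨Ω, hΩ, hC⟩ := exists_cur
    obtain ⟨Ω', hC', hΩ'⟩ := exists_om hC.g2 hC.g3
    intro h0
    have h1 := hval _ Ω' hC' hΩ' _ U.valuation hU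
    rw [h0, map_zero] at h1
    have h5 : U.valuation Ω' ≠ 0 := (Valuation.ne_zero_iff _).2 hC'.lat.ne
    exact pow_ne_zero _ h5 h1.symm

end main

end Pool.Agent.J4.H54.QT
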