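import Pool.Agent.J4.H54.QT.Alg
import Pool.Agent.J4.H24.BT.Eul

/-!
# The characteristic polynomials of the elements outside of the subgroup
-/

set_option autoImplicit false
set_option linter.unusedSectionVars false

namespace Pool.Agent.J4.H54.QT

open Pool.Agent.J4.H24.BT (cM cM_mul cM_one Eig det_eig exists_eig quad_fac)

section ind

variable {A U : Type} [CommGroup A] [Finite A] [Group U] {j : A →* U} {t : U} {e : A ≃* A} {s : A}

lemma Ix.out' (I : Ix j t e s) (a b : A) : j a ≠ j b * t := by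
  intro h
  apply I.out (b⁻¹ * a)
  rw [map_mul, h, ← mul_assoc, ← map_mul, inv_mul_cancel, map_one, one_mul]

lemma Ix.comm (I : Ix j t e s) (a : A) : t * j a = j (e a) * t := by
  rw [← I.conj, inv_mul_cancel_right]

/-- the sign -/
noncomputable def sg (j : A →* U) (u : U) : ℂ := by
  classical
  exact if ∃ a, u = j a then 1 else -1

lemma sg_in (a : A) : sg j (j a) = 1 := by
  unfold sg
  rw [if_pos ⟨a, rfl⟩]

lemma Ix.sg_out (I : Ix j t e s) (a : A) : sg j (j a * t) = -1 := by
  unfold sg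
  rw [if_neg]
  rintro ⟨b, hb⟩
  exact I.out' b a hb.symm

lemma Ix.sg_mul (I : Ix j t e s) (u v : U) : sg j (u * v) = sg j u * sg j v := by
  rcases I.cov u with ⟨a, rfl⟩ | ⟨a, rfl⟩ <;> rcases I.cov v with ⟨b, rfl⟩ | ⟨b, rfl⟩
  · rw [← map_mul, sg_in, sg_in, sg_in, one_mul]
  · rw [← mul_assoc, ← map_mul, I.sg_out, I.sg_out, sg_in, one_mul]
  · have h : j a * t * j b = j (a * e b) * t := by rw [mul_assoc, I.comm, map_mul, mul_assoc]
    rw [h, I.sg_out, I.sg_out, sg_in, mul_one]
  · have h : j a * t * (j b * t) = j (a * e b * s) := by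
      rw [map_mul, map_mul, ← I.sq, mul_assoc (j a) t, ← mul_assoc t, I.comm]
      simp only [mul_assoc]
    rw [h, I.sg_out, I.sg_out, sg_in]
    norm_num

/-- the sign as a character of a subgroup -/
noncomputable def Ix.sC (I : Ix j t e s) {C : Type} [CommGroup C] (f : C →* U) : MulChar C ℂ where
  toFun x := sg j (f x)
  map_one' := by rw [map_one, ← map_one j, sg_in]
  map_mul' x y := by rw [map_mul, I.sg_mul]
  map_nonunit' := fun a ha => absurd (Group.isUnit a) ha

variable {κ : Type} [Fintype κ] [DecidableEq κ] {ρ : U →* GL κ ℂ}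

/-- the characteristic polynomials are even -/
theorem Ix.det_even [Finite U] (I : Ix j t e s)
    (h0 : ∀ u, (∀ a, u ≠ j a) → (cM (ρ u)).trace = 0) {u : U} (hu : ∀ a, u ≠ j a) (y : ℂ) :
    (1 - y • cM (ρ u)).det = (1 + y • cM (ρ u)).det := by
  classical
  let C := Subgroup.zpowers u
  let _ : CommGroup C := { (inferInstance : Group C) with mul_comm := fun a b => mul_comm' a b }
  let f : C →* U := C.subtype
  obtain ⟨b, χ, hb⟩ := exists_eig (ρ.comp f)
  have hf : Finite (MulChar C ℂ) := inferInstance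
  have : Fintype (MulChar C ℂ) := Fintype.ofFinite _
  let ε : MulChar C ℂ := I.sC f
  have hε : ∀ x : C, ε x = 1 ∨ ε x = -1 ∧ (cM (ρ (f x))).trace = 0 := by
    intro x
    rcases I.cov (f x) with ⟨a, ha⟩ | ⟨a, ha⟩
    · left
      show sg j (f x) = 1
      rw [ha, sg_in]
    · right
      constructor
      · show sg j (f x) = -1
        rw [ha, I.sg_out]
      · apply h0
        intro a' ha'
        exact I.out' a' a (ha'.symm.trans ha)
  have hεε : ε * ε = 1 := by
    ext x
    rw [MulChar.mul_apply, MulChar.one_apply_coe]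
    rcases hε x with h | ⟨h, -⟩ <;> rw [h] <;> norm_num
  have hmu : ∀ c : MulChar C ℂ, mu χ (c * ε) = mu χ c := by
    intro c
    refine mu_congr hb hb (Equiv.refl C) fun a => ?_
    show (c * ε)⁻¹ a * (cM (ρ (f a))).trace = c⁻¹ a * (cM (ρ (f a))).trace
    rw [mul_inv, MulChar.mul_apply]
    have h1 : ε⁻¹ = ε := by rw [inv_eq_iff_mul_eq_one, hεε]
    rw [h1]
    rcases hε a with h | ⟨h, h'⟩
    · rw [h, mul_one]
    · rw [h', mul_zero, mul_zero]
  let x₀ : C := ⟨u, Subgroup.mem_zpowers u⟩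
  have hfx : f x₀ = u := rfl
  have hε0 : ε x₀ = -1 := by
    rcases I.cov u with ⟨a, ha⟩ | ⟨a, ha⟩
    · exact absurd ha (hu a)
    · show sg j u = -1
      rw [ha, I.sg_out]
  have e1 : (1 - y • cM (ρ u)).det = ∏ i, (1 - y * χ i x₀) :=
    det_eig b fun i => (Eig.one (b i)).sub ((hb x₀ i).smul y)
  have e2 : (1 + y • cM (ρ u)).det = ∏ i, (1 + y * χ i x₀) :=
    det_eig b fun i => (Eig.one (b i)).add ((hb x₀ i).smul y)
  rw [e1, e2, prod_mu χ (fun c => 1 - y * c x₀), prod_mu χ (fun c => 1 + y * c x₀)]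
  refine Fintype.prod_equiv (Function.Involutive.toPerm (fun c => c * ε) fun c => by
    show c * ε * ε = c
    rw [mul_assoc, hεε, mul_one]) _ _ fun c => ?_
  show _ = (1 + y * (c * ε) x₀) ^ mu χ (c * ε)
  rw [hmu, MulChar.mul_apply, hε0]
  congr 1
  ring

/-- **the determinant outside of the subgroup** -/
theorem Ix.det_out [Finite U] (I : Ix j t e s) {b : Module.Basis κ ℂ (κ → ℂ)}
    {χ : κ → MulChar A ℂ} (hb : ∀ a i, Eig (b i) (cM (ρ (j a))) (χ i a))
    (h0 : ∀ u, (∀ a, u ≠ j a) → (cM (ρ u)).trace = 0) {κ' : Type} [Fintype κ']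
    {c : κ' → MulChar A ℂ} (hc : ∀ z : MulChar A ℂ → ℂ,
      (∏ i, z (c i)) * ∏ i, z (tw e (c i)) = ∏ i, z (χ i)) {u : U} (hu : ∀ a, u ≠ j a) {a : A}
    (ha : u * u = j a) (y : ℂ) :
    (1 - y • cM (ρ u)).det = ∏ i, (1 - y ^ 2 * c i a) := by
  classical
  have hea : e a = a := by
    rcases I.cov u with ⟨a', h⟩ | ⟨a', h⟩
    · exact absurd h (hu a')
    · apply I.inj
      have h1 : u * j a * u⁻¹ = j a := by
        rw [← ha]
        group
      rw [h] at h1
      have h2 : j a' * t * j a * (j a' * t)⁻¹ = j a' * (t * j a * t⁻¹) * (j a')⁻¹ := by group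
      rw [h2, I.conj, ← map_inv, ← map_mul, ← map_mul, mul_comm a', mul_inv_cancel_right] at h1
      exact h1
  open Polynomial in
  let P : ℂ[X] := (1 - (X : ℂ[X]) • (cM (ρ u)).map C).det
  open Polynomial in
  let Q : ℂ[X] := ∏ i, (1 - X ^ 2 * C (c i a))
  have hP : ∀ y : ℂ, P.eval y = (1 - y • cM (ρ u)).det := by
    intro y
    show Polynomial.eval y (Matrix.det _) = _
    rw [← Polynomial.coe_evalRingHom, RingHom.map_det]
    congr 1
    ext i k
    by_cases hik : i = k
    · subst hik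
      simp
      ring
    · simp [hik]
      ring
  have hQ : ∀ y : ℂ, Q.eval y = ∏ i, (1 - y ^ 2 * c i a) := by
    intro y
    show Polynomial.eval y (∏ i, _) = _
    rw [Polynomial.eval_prod]
    refine Finset.prod_congr rfl fun i _ => ?_
    rw [Polynomial.eval_sub, Polynomial.eval_mul, Polynomial.eval_pow, Polynomial.eval_X,
      Polynomial.eval_C, Polynomial.eval_one]
  have hPQ : P * P = Q * Q := by
    apply Polynomial.funext
    intro y
    rw [Polynomial.eval_mul, Polynomial.eval_mul, hP, hQ]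
    have h1 : (1 - y • cM (ρ u)).det * (1 - y • cM (ρ u)).det =
        (1 - (y ^ 2) • cM (ρ (j a))).det := by
      conv_lhs => rw [I.det_even h0 hu y]
      rw [← I.det_even h0 hu y, ← Matrix.det_mul]
      conv_lhs => rw [Matrix.det_mul]
      have h2 : (1 - y • cM (ρ u)).det * (1 - y • cM (ρ u)).det =
        (1 - y • cM (ρ u)).det * (1 + y • cM (ρ u)).det := by rw [← I.det_even h0 hu y]
      rw [h2, ← Matrix.det_mul]
      congr 1
      rw [← ha, map_mul, cM_mul, Matrix.sub_mul, Matrix.one_mul, Matrix.mul_add, Matrix.mul_one,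
        Matrix.smul_mul, Matrix.mul_smul, smul_smul, pow_two]
      abel
    have h3 : (1 - (y ^ 2) • cM (ρ (j a))).det = ∏ i, (1 - y ^ 2 * χ i a) :=
      det_eig b fun i => (Eig.one (b i)).sub ((hb a i).smul _)
    rw [h1, h3, ← hc fun χ => 1 - y ^ 2 * χ a]
    simp only [tw_apply, hea]
  have h1 : (P - Q) * (P + Q) = 0 := by linear_combination hPQ
  rcases mul_eq_zero.1 h1 with h | h
  · rw [← hP, ← hQ, sub_eq_zero.1 h]
  · exfalso
    have h2 := congrArg (Polynomial.eval 0) h
    rw [Polynomial.eval_add, hP, hQ, Polynomial.eval_zero] at h2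
    simp at h2

/-- **the determinant in the subgroup** -/
theorem Ix.det_in {b : Module.Basis κ ℂ (κ → ℂ)}
    {χ : κ → MulChar A ℂ} (hb : ∀ a i, Eig (b i) (cM (ρ (j a))) (χ i a)) {κ' : Type} [Fintype κ']
    {c : κ' → MulChar A ℂ} (hc : ∀ z : MulChar A ℂ → ℂ,
      (∏ i, z (c i)) * ∏ i, z (tw e (c i)) = ∏ i, z (χ i)) (a : A) (y : ℂ) :
    (1 - y • cM (ρ (j a))).det = (∏ i, (1 - y * c i a)) * ∏ i, (1 - y * c i (e a)) := by
  have h3 : (1 - y • cM (ρ (j a))).det = ∏ i, (1 - y * χ i a) :=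
    det_eig b fun i => (Eig.one (b i)).sub ((hb a i).smul _)
  rw [h3, ← hc fun χ => 1 - y * χ a]
  simp only [tw_apply]

end ind

section eigen

variable {κ : Type} [Fintype κ] [DecidableEq κ]

/-- the eigenvalues of a matrix -/
theorem exists_roots (M : Matrix κ κ ℂ) : ∃ l : κ → ℂ,
    (∀ a b : ℂ, (1 - a • M + b • M ^ 2).det = ∏ i, (1 - a * l i + b * l i ^ 2)) ∧
    ∀ i, ∃ v : κ → ℂ, v ≠ 0 ∧ M.mulVec v = l i • v := by
  classical
  have hs : M.charpoly.Splits := IsAlgClosed.splits _
  have hm : M.charpoly.Monic := M.charpoly_monic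
  have hcard : Multiset.card M.charpoly.roots = Fintype.card κ := by
    rw [← hs.natDegree_eq_card_roots, Matrix.charpoly_natDegree_eq_dim]
  obtain ⟨l, hl⟩ : ∃ l : κ → ℂ, Finset.univ.val.map l = M.charpoly.roots := by
    obtain ⟨L, hL⟩ := Quot.exists_rep M.charpoly.roots
    have hL' : (L : Multiset ℂ) = M.charpoly.roots := hL
    have hlen : L.length = Fintype.card κ := by rw [← hcard, ← hL', Multiset.coe_card]
    let e : κ ≃ Fin L.length := (Fintype.equivFin κ).trans (finCongr hlen.symm)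
    refine ⟨fun i => L.get (e i), ?_⟩
    have h1 : (Finset.univ : Finset κ).val.map (fun i => L.get (e i)) =
        (Finset.univ : Finset (Fin L.length)).val.map L.get := by
      rw [← Finset.map_univ_equiv e, Finset.map_val, Multiset.map_map]
      rfl
    rw [h1, ← hL']
    simp [Fin.univ_def, List.map_get_finRange]
  have hlin : ∀ x : ℂ, (1 - x • M).det = ∏ i, (1 - x * l i) := by
    intro x
    by_cases hx : x = 0
    · subst hx
      simp
    · have h1 : M.charpoly.eval x⁻¹ = ∏ i, (x⁻¹ - l i) := by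
        rw [hs.eval_eq_prod_roots_of_monic hm, ← hl, Multiset.map_map]
        rfl
      rw [Matrix.eval_charpoly] at h1
      have h2 : (1 - x • M) = x • (Matrix.scalar κ x⁻¹ - M) := by
        rw [smul_sub]
        congr 1
        ext i k
        by_cases hik : i = k
        · subst hik
          simp [hx]
        · simp [hik]
      rw [h2, Matrix.det_smul, h1, ← Finset.card_univ, ← Finset.prod_const,
        ← Finset.prod_mul_distrib]
      refine Finset.prod_congr rfl fun i _ => ?_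
      rw [mul_sub, mul_inv_cancel₀ hx]
  refine ⟨l, fun a b => ?_, fun i => ?_⟩
  · obtain ⟨d, hd⟩ := IsAlgClosed.exists_pow_nat_eq (a ^ 2 - 4 * b) (n := 2) (by norm_num)
    obtain ⟨x, y, rfl, rfl⟩ : ∃ x y : ℂ, a = x + y ∧ b = x * y :=
      ⟨(a + d) / 2, (a - d) / 2, by ring, by linear_combination (1 / 4 : ℂ) * hd⟩
    rw [quad_fac, hlin, hlin, ← Finset.prod_mul_distrib]
    refine Finset.prod_congr rfl fun i _ => ?_
    ring
  · have h1 : l i ∈ M.charpoly.roots := by
      rw [← hl]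
      exact Multiset.mem_map.2 ⟨i, Finset.mem_univ i, rfl⟩
    have h2 : M.charpoly.eval (l i) = 0 := (Polynomial.mem_roots'.1 h1).2
    rw [Matrix.eval_charpoly] at h2
    obtain ⟨v, hv, hv2⟩ := Matrix.exists_mulVec_eq_zero_iff.2 h2
    refine ⟨v, hv, ?_⟩
    rw [Matrix.sub_mulVec, sub_eq_zero] at hv2
    rw [← hv2]
    ext k
    simp [Matrix.mulVec_diagonal]

end eigen

end Pool.Agent.J4.H54.QT
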