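import Pool.Agent.J4.H54.QT.Fro
import Pool.Agent.J4.H24.BT.Main

/-!
# The Euler factors of `V_f ⊗ V` over the rational primes
-/

set_option autoImplicit false
set_option linter.unusedSectionVars false

namespace Pool.Agent.J4.H54.QT

open NumberField IsDedekindDomain

open scoped Pointwise

open Pool.Agent.Y696 Pool.Agent.W192.HK Pool.Agent.TH936.CM Pool.Agent.TH936.PU

open Pool.Agent.R430 (DatI xI xI_pos xI_neg prime_cop_iff)

open Pool.Agent.R431.B hiding frobM euler frobM_single cM cM_mul cM_one Eig det_eig exists_eig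
  lin_sandwich quad_fac cM_inv cM_inv' euler_place EF EF_diff euler_EF frobM_conj det_sandwich
  quad_sandwich frob_avg frobEquiv Eig.one Eig.sub Eig.smul Eig.mul Eig.add Eig.pow Eig.sum

open Pool.Agent.J4.H24.BT (cM cM_mul cM_one Eig det_eig exists_eig frobM euler frobM_single
  lin_sandwich quad_fac cM_inv cM_inv' euler_place EF EF_diff)

section fac

variable {F N K : Type} [Field F] [NumberField F] [IsCyclotomicExtension {3} ℚ F] [Field N]
  [NumberField N] [Algebra F N] [Field K] [NumberField K] [Algebra N K] [Algebra F K]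
  [IsScalarTower F N K] [IsGalois F N] [IsGalois ℚ K] {e0 : 𝓞 F ≃+* eis} {ι : eis →+* 𝓞 N}
  {A : Type} [CommGroup A] [Finite A] [MulSemiringAction A (𝓞 K)] {j : A →* (K ≃ₐ[F] K)}
  {t : K ≃ₐ[F] K} {e : A ≃* A} {s : A} {n : ℕ} {Φ : Ideal (𝓞 N) → A}
  {κ' : Type} [Fintype κ']

/-- the local factor at a prime of the Eisenstein integers -/
noncomputable def ZZ (ι : eis →+* 𝓞 N) (n : ℕ) (Φ : Ideal (𝓞 N) → A) (c : κ' → MulChar A ℂ)
    (s' : ℂ) (Q : HeightOneSpectrum eis) : ℂ :=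
  ∏ P' : {P' : HeightOneSpectrum (𝓞 N) // bel ι P' = Q},
      ∏ i, HH ι P'.1 (xI n Φ (c i) P'.1.asIdeal) s'

lemma HH_zero (P : HeightOneSpectrum (𝓞 N)) (s' : ℂ) : HH ι P 0 s' = 1 := by
  unfold Pool.Agent.Y696.HH
  simp

lemma ZZ_n (c : κ' → MulChar A ℂ) (s' : ℂ) {Q : HeightOneSpectrum eis} (hQ : (n : eis) ∈ Q.asIdeal) :
    ZZ ι n Φ c s' Q = 1 := by
  unfold ZZ
  refine Finset.prod_eq_one fun P' _ => Finset.prod_eq_one fun i _ => ?_
  rw [xI_neg, HH_zero]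
  rw [prime_cop_iff, not_not]
  have h := P'.2
  rw [← h, mem_bel, map_natCast] at hQ
  exact hQ

lemma psi_three {Q : HeightOneSpectrum eis} (hQ : (3 : eis) ∈ Q.asIdeal) : psi Q.asIdeal = 0 := by
  rw [psi_zero_iff, Ideal.isCoprime_iff_sup_eq]
  intro h
  apply Q.isPrime.ne_top
  rw [← h, left_eq_sup, Ideal.span_singleton_le_iff_mem]
  exact hQ

lemma ZZ_three (c : κ' → MulChar A ℂ) (s' : ℂ) {Q : HeightOneSpectrum eis}
    (hQ : (3 : eis) ∈ Q.asIdeal) : ZZ ι n Φ c s' Q = 1 := by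
  unfold ZZ
  refine Finset.prod_eq_one fun P' _ => Finset.prod_eq_one fun i _ => ?_
  obtain ⟨f, hf0, hf⟩ := deg_base ι P'.1
  rw [HH_val hf, P'.2, psi_three hQ, zero_mul, zero_pow hf0.ne', zero_mul, sub_zero, inv_one]

/-- the product over the primes of the Eisenstein integers -/
theorem ZZ_prod {c : κ' → MulChar A ℂ} {s' : ℂ} {B : κ' → ℂ}
    (hB : ∀ i, HasProd (fun P : HeightOneSpectrum (𝓞 N) => HH ι P (xI n Φ (c i) P.asIdeal) s') (B i)) :
    HasProd (fun Q : HeightOneSpectrum eis => ZZ ι n Φ c s' Q) (∏ i, B i) := by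
  have h1 : HasProd (fun P : HeightOneSpectrum (𝓞 N) =>
      ∏ i, HH ι P (xI n Φ (c i) P.asIdeal) s') (∏ i, B i) := by
    apply hasProd_prod
    intro i _
    exact hB i
  have h2 := (Equiv.sigmaFiberEquiv (bel ι)).hasProd_iff.2 h1
  refine h2.sigma fun Q => ?_
  exact hasProd_fintype _ (.unconditional _)

/-- there is a place of `K` above every prime of the Eisenstein integers -/
lemma exists_top (ι' : eis →+* 𝓞 K) (Q : HeightOneSpectrum eis) :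
    ∃ v : HeightOneSpectrum (𝓞 K), bel ι' v = Q := by
  let _ : Algebra eis (𝓞 K) := ι'.toAlgebra
  have halg : ∀ a : eis, algebraMap eis (𝓞 K) a = ι' a := fun _ => rfl
  have htow : IsScalarTower ℤ eis (𝓞 K) := IsScalarTower.of_algebraMap_eq fun x => by
    rw [halg]
    simp
  have hint : Algebra.IsIntegral eis (𝓞 K) :=
    ⟨fun x => (Algebra.IsIntegral.isIntegral (R := ℤ) x).tower_top⟩
  have hinj : Function.Injective (algebraMap eis (𝓞 K)) := ι_inj ι'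
  have hf : FaithfulSMul eis (𝓞 K) := (faithfulSMul_iff_algebraMap_injective _ _).2 hinj
  have : Q.asIdeal.IsMaximal := Q.isPrime.isMaximal Q.ne_bot
  obtain ⟨P, hP, hlo⟩ := Ideal.exists_maximal_ideal_liesOver_of_isIntegral Q.asIdeal (S := 𝓞 K)
  refine ⟨⟨P, hP.isPrime, ?_⟩, ?_⟩
  · intro hbot
    have h6 := hlo.over
    rw [hbot] at h6
    apply Q.ne_bot
    rw [h6]
    exact (RingHom.injective_iff_ker_eq_bot ι').1 (ι_inj ι')
  · apply HeightOneSpectrum.ext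
    exact hlo.over.symm

variable {κ : Type} [Fintype κ] [DecidableEq κ] {ρ : (K ≃ₐ[ℚ] K) →* GL κ ℂ}
  {b : Module.Basis κ ℂ (κ → ℂ)} {χ : κ → MulChar A ℂ} {c : κ' → MulChar A ℂ}

/-- the conditions on the representation and its characters -/
structure Rp (j : A →* (K ≃ₐ[F] K)) (e : A ≃* A) (ρ : (K ≃ₐ[ℚ] K) →* GL κ ℂ)
    (b : Module.Basis κ ℂ (κ → ℂ)) (χ : κ → MulChar A ℂ) (c : κ' → MulChar A ℂ) : Prop where
  eig : ∀ a i, Eig (b i) (cM (ρ (inc F K (j a)))) (χ i a)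
  tr : ∀ u : K ≃ₐ[F] K, (∀ a, u ≠ j a) → (cM (ρ (inc F K u))).trace = 0
  ch : ∀ z : MulChar A ℂ → ℂ, (∏ i, z (c i)) * ∏ i, z (tw e (c i)) = ∏ i, z (χ i)

lemma ZZ_val (T : Twr j t e s n Φ) (hι : ∀ y : 𝓞 F, ι (e0 y) = algebraMap (𝓞 F) (𝓞 N) y)
    (h2 : Module.finrank F N = 2) (R : Rp j e ρ b χ c) {v : HeightOneSpectrum (𝓞 K)}
    (hv : (n : 𝓞 K) ∉ v.asIdeal) {σ : K ≃ₐ[F] K} {Q : HeightOneSpectrum eis}
    (hQ : bel ι (und (F := N) v) = Q)
    (hσ : ∀ x : 𝓞 K, σ • x - x ^ Nat.card (eis ⧸ Q.asIdeal) ∈ v.asIdeal) (s' : ℂ) :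
    ZZ ι n Φ c s' Q =
    ((1 - (psi Q.asIdeal * (Nat.card (eis ⧸ Q.asIdeal) : ℂ) ^ (-s')) • cM (ρ (inc F K σ))).det)⁻¹ := by
  subst hQ
  have : IsGalois F K := IsGalois.tower_top_of_isGalois ℚ F K
  exact T.fibre hι h2 (ρ := ρ.comp (inc F K)) R.eig R.tr R.ch hv hσ s'

/-- the factors at the primes `p = 1` modulo `3` that do not divide `n` -/
theorem factor1 (T : Twr j t e s n Φ) (hι : ∀ y : 𝓞 F, ι (e0 y) = algebraMap (𝓞 F) (𝓞 N) y)
    (h2 : Module.finrank F N = 2) (R : Rp j e ρ b χ c) {p : ℕ} (hp : p.Prime)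
    {v : HeightOneSpectrum (𝓞 K)} (hv : (p : 𝓞 K) ∈ v.asIdeal) (h1 : p % 3 = 1)
    (hn' : ∀ w : HeightOneSpectrum (𝓞 K), (p : 𝓞 K) ∈ w.asIdeal → (n : 𝓞 K) ∉ w.asIdeal) (s' : ℂ) :
    fibProd (ZZ ι n Φ c s') p = euler ρ (E27 ℤ) v s' p := by
  have hp3 : p ≠ 3 := by rintro rfl; norm_num at h1
  set ι' : eis →+* 𝓞 K := (algebraMap (𝓞 N) (𝓞 K)).comp ι with hι'
  have hb' : ∀ w : HeightOneSpectrum (𝓞 K), bel ι (und (F := N) w) = bel ι' w := fun w => rfl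
  set P := bel ι' v with hPdef
  have hP : (p : eis) ∈ P.asIdeal := (mem_bel_nat v p).2 hv
  obtain ⟨π, hπ, hπ1, hN, hψ, hψ', hn, hn'', hne, hall⟩ := over_mod1 hp hP h1
  have hfr : ∀ w : HeightOneSpectrum (𝓞 K), (p : 𝓞 K) ∈ w.asIdeal →
      ∃ σ : K ≃ₐ[F] K, FrobSet w = {inc F K σ} ∧ ∀ x : 𝓞 K, σ • x - x ^ p ∈ w.asIdeal := by
    intro w hw
    obtain ⟨σ₀, hσ₀⟩ := frob_nonempty w
    obtain ⟨σ, hσ⟩ := frob_mod1 (F := F) hp hw h1 hσ₀
    refine ⟨σ, ?_, fun x => ?_⟩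
    · rw [hσ]
      exact frob_single (F := F) hp hw hp3 (T.unr (hn' w hw)) hσ₀
    · have h3 := (frob_iff hp hw σ₀).1 hσ₀ x
      rw [← hσ] at h3
      exact h3
  obtain ⟨σ, hF, hσ⟩ := hfr v hv
  obtain ⟨w, hw⟩ := exists_top ι' (cjP P)
  have hwp : (p : 𝓞 K) ∈ w.asIdeal := by
    rw [← mem_bel_nat (ι := ι'), hw, mem_cjP_nat]
    exact hP
  obtain ⟨σ', hF', hσ'⟩ := hfr w hwp
  obtain ⟨τ, hτ⟩ := trans_over hp hv hwp
  have hconj : τ * inc F K σ * τ⁻¹ = inc F K σ' := by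
    have h3 : inc F K σ ∈ FrobSet v := by rw [hF]; rfl
    have h4 := frob_conj hτ h3
    rw [hF'] at h4
    exact h4
  have hc1 := card_mod1 hp hP h1
  have hc2 := card_mod1 (P := cjP P) hp ((mem_cjP_nat p).2 hP) h1
  set X : ℂ := (p : ℂ) ^ (-s') with hX
  set M := cM (ρ (inc F K σ)) with hM
  have hM' : cM (ρ (inc F K σ')) = cM (ρ τ) * M * cM (ρ τ⁻¹) := by
    rw [← hconj, map_mul, map_mul, cM_mul, cM_mul]
  have hL1 : ZZ ι n Φ c s' P = ((1 - ((π : ℂ) * X) • M).det)⁻¹ := by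
    rw [ZZ_val T hι h2 R (hn' v hv) (hb' v) (by rw [hc1]; exact hσ), hψ, hc1]
  have hL2 : ZZ ι n Φ c s' (cjP P) = ((1 - ((starRingEnd ℂ) (π : ℂ) * X) • M).det)⁻¹ := by
    rw [ZZ_val T hι h2 R (hn' w hwp) ((hb' w).trans hw) (by rw [hc2]; exact hσ'), hψ', hc2, hM',
      lin_sandwich (cM_inv ρ τ) (cM_inv' ρ τ)]
  rw [fib_mod1 hne hP hall, hL1, hL2, ← mul_inv, ← quad_fac]
  unfold Pool.Agent.J4.H24.BT.euler
  rw [frobM_single ρ hF, ← hM, if_neg (dvd_disc hp hp3), cpow_quad hp, ← hX]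
  have hpc : (p : ℂ) = (π : ℂ) * (starRingEnd ℂ) (π : ℂ) := by
    have h2 := congrArg (fun t : eis => (t : ℂ)) hN
    push_cast at h2
    rw [cj_coe] at h2
    exact h2.symm
  have ha : ((((p : ℤ) - pts (E27 ℤ) (ZMod p) : ℤ) : ℂ)) = (π : ℂ) + (starRingEnd ℂ) (π : ℂ) := by
    push_cast
    rw [pts_mod1 hp h1 hP hπ hπ1 hN]
    ring
  rw [ha]
  have e1 : (π : ℂ) * X + (starRingEnd ℂ) (π : ℂ) * X = ((π : ℂ) + (starRingEnd ℂ) (π : ℂ)) * X := by
    ring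
  have e2 : (π : ℂ) * X * ((starRingEnd ℂ) (π : ℂ) * X) = (p : ℂ) * X ^ 2 := by
    rw [hpc]
    ring
  rw [e1, e2]

/-- the factors at the primes `p = 2` modulo `3` -/
theorem factor2 (T : Twr j t e s n Φ) (hι : ∀ y : 𝓞 F, ι (e0 y) = algebraMap (𝓞 F) (𝓞 N) y)
    (h2 : Module.finrank F N = 2) (R : Rp j e ρ b χ c) {p : ℕ} (hp : p.Prime)
    {v : HeightOneSpectrum (𝓞 K)} (hv : (p : 𝓞 K) ∈ v.asIdeal) (h1 : p % 3 = 2)
    (hnv : (n : 𝓞 K) ∉ v.asIdeal) (s' : ℂ) :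
    fibProd (ZZ ι n Φ c s') p = euler ρ (E27 ℤ) v s' p := by
  have hp3 : p ≠ 3 := by rintro rfl; norm_num at h1
  set ι' : eis →+* 𝓞 K := (algebraMap (𝓞 N) (𝓞 K)).comp ι with hι'
  have hb' : ∀ w : HeightOneSpectrum (𝓞 K), bel ι (und (F := N) w) = bel ι' w := fun w => rfl
  set P := bel ι' v with hPdef
  have hP : (p : eis) ∈ P.asIdeal := (mem_bel_nat v p).2 hv
  obtain ⟨hψ, hn, hall⟩ := over_mod2 hp hP h1
  obtain ⟨hcard, hsp⟩ := card_mod2 hp hP h1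
  obtain ⟨σ, hσ⟩ := frob_nonempty v
  have hF : FrobSet v = {σ} := frob_single (F := F) hp hv hp3 (T.unr hnv) hσ
  obtain ⟨τ, hτ, hτ2⟩ := frob_mod2 (F := F) hp hv h1 hσ
  set X : ℂ := (p : ℂ) ^ (-s') with hX
  rw [fib_mod2 hP hall, ZZ_val T hι h2 R hnv (hb' v) (σ := τ) (by rw [hcard]; exact hτ2), hψ, hcard]
  unfold Pool.Agent.J4.H24.BT.euler
  rw [frobM_single ρ hF, if_neg (dvd_disc hp hp3), cpow_quad hp, ← hX]
  have ha : ((((p : ℤ) - pts (E27 ℤ) (ZMod p) : ℤ) : ℂ)) = 0 := by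
    rw [pts_other hp (by omega)]
    simp
  have hsq : cM (ρ σ) ^ 2 = cM (ρ (inc F K τ)) := by
    rw [hτ, map_mul, cM_mul, pow_two]
  rw [ha, zero_mul, zero_smul, sub_zero, hsq]
  have e1 : ((p ^ 2 : ℕ) : ℂ) ^ (-s') = X ^ 2 := by
    push_cast
    rw [pow_two, Complex.natCast_mul_natCast_cpow, hX, pow_two]
  rw [e1]
  congr 2
  rw [neg_mul, neg_smul, sub_neg_eq_add]

/-- the factor at three -/
theorem factor3 (v : HeightOneSpectrum (𝓞 K)) (s' : ℂ) :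
    fibProd (ZZ ι n Φ c s') 3 = euler ρ (E27 ℤ) v s' 3 := by
  rw [fib_one]
  · unfold Pool.Agent.J4.H24.BT.euler
    have ha : (((((3 : ℕ) : ℤ) - pts (E27 ℤ) (ZMod 3) : ℤ) : ℂ)) = 0 := by
      rw [pts_other Nat.prime_three (by norm_num)]
      simp
    have hd : ((3 : ℕ) : ℤ) ∣ (E27 ℤ).Δ := by
      rw [disc27]
      norm_num
    rw [ha, if_pos hd]
    simp
  · intro P hP
    exact ZZ_three c s' (by exact_mod_cast hP)

/-- the factors at the primes that divide `n` -/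
theorem factorn {p : ℕ} (hpn : p ∣ n) (s' : ℂ) : fibProd (ZZ ι n Φ c s') p = 1 := by
  refine fib_one fun P hP => ZZ_n c s' ?_
  obtain ⟨k, rfl⟩ := hpn
  rw [Nat.cast_mul]
  exact P.asIdeal.mul_mem_right _ hP

end fac

section bad

variable {F K : Type} [Field F] [NumberField F] [IsCyclotomicExtension {3} ℚ F] [Field K]
  [NumberField K] [Algebra F K] [IsGalois ℚ K] {κ : Type} [Fintype κ] [DecidableEq κ]
  (ρ : (K ≃ₐ[ℚ] K) →* GL κ ℂ)

/-- the eigenvalues of the average of the Frobenius automorphisms -/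
theorem frob_eig {p : ℕ} (hp : p.Prime) {v : HeightOneSpectrum (𝓞 K)} (hv : (p : 𝓞 K) ∈ v.asIdeal)
    {l : ℂ} {u : κ → ℂ} (hu : u ≠ 0) (h : (frobM ρ v).mulVec u = l • u) (hl : l ≠ 0) :
    ∃ σ ∈ FrobSet v, (cM (ρ σ)).mulVec u = l • u := by
  classical
  obtain ⟨σ₀, hσ₀⟩ := frob_nonempty v
  refine ⟨σ₀, hσ₀, ?_⟩
  have hfin : Finite (FrobSet v) := inferInstance
  let _ : Fintype (FrobSet v) := Fintype.ofFinite _
  have hne : Nonempty (FrobSet v) := ⟨⟨σ₀, hσ₀⟩⟩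
  have hcard : (Nat.card (FrobSet v) : ℂ) ≠ 0 := by exact_mod_cast Nat.card_pos.ne'
  have hM : frobM ρ v = (Nat.card (FrobSet v) : ℂ)⁻¹ • ∑ σ : FrobSet v, cM (ρ σ.1) := by
    unfold Pool.Agent.J4.H24.BT.frobM
    rw [finsum_eq_sum_of_fintype]
    rfl
  -- an element of the inertia group
  have hin : ∀ i : K ≃ₐ[ℚ] K, (∀ x : 𝓞 K, i • x - x ∈ v.asIdeal) →
      cM (ρ i) * frobM ρ v = frobM ρ v := by
    intro i hi
    have hmem : ∀ (k : K ≃ₐ[ℚ] K), (∀ x : 𝓞 K, k • x - x ∈ v.asIdeal) →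
        ∀ σ ∈ FrobSet v, k * σ ∈ FrobSet v := by
      intro k hk σ hσ
      rw [frob_iff hp hv] at hσ ⊢
      intro x
      have h3 := v.asIdeal.add_mem (hk (σ • x)) (hσ x)
      rw [sub_add_sub_cancel, ← mul_smul] at h3
      exact h3
    have hst : ∀ x : 𝓞 K, x ∈ v.asIdeal → i • x ∈ v.asIdeal := by
      intro x hx
      have := v.asIdeal.add_mem (hi x) hx
      rwa [sub_add_cancel] at this
    have hi' : ∀ x : 𝓞 K, i⁻¹ • x - x ∈ v.asIdeal := by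
      intro x
      have hfo : ∃ m : ℕ, 0 < m ∧ i ^ m = 1 := ⟨orderOf i, orderOf_pos i, pow_orderOf_eq_one i⟩
      obtain ⟨m, hm, him⟩ := hfo
      have hpow : ∀ r : ℕ, ∀ x : 𝓞 K, (i ^ r) • x - x ∈ v.asIdeal := by
        intro r
        induction r with
        | zero => intro x; rw [pow_zero, one_smul, sub_self]; exact v.asIdeal.zero_mem
        | succ r ih =>
          intro x
          have h4 := v.asIdeal.add_mem (ih (i • x)) (hi x)
          rw [sub_add_sub_cancel, ← mul_smul, ← pow_succ] at h4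
          exact h4
      have h5 := hpow (m - 1) x
      have h6 : i ^ (m - 1) = i⁻¹ := by
        rw [eq_inv_iff_mul_eq_one, ← pow_succ, Nat.sub_add_cancel hm, him]
      rwa [h6] at h5
    let E : FrobSet v ≃ FrobSet v :=
      { toFun := fun σ => ⟨i * σ.1, hmem i hi _ σ.2⟩
        invFun := fun σ => ⟨i⁻¹ * σ.1, hmem i⁻¹ hi' _ σ.2⟩
        left_inv := fun σ => Subtype.ext (inv_mul_cancel_left i σ.1)
        right_inv := fun σ => Subtype.ext (mul_inv_cancel_left i σ.1) }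
    rw [hM, Matrix.mul_smul, Matrix.mul_sum]
    congr 1
    rw [← E.sum_comp (fun σ : FrobSet v => cM (ρ σ.1))]
    refine Finset.sum_congr rfl fun σ _ => ?_
    rw [← cM_mul, ← map_mul]
    rfl
  have hfix : ∀ i : K ≃ₐ[ℚ] K, (∀ x : 𝓞 K, i • x - x ∈ v.asIdeal) → (cM (ρ i)).mulVec u = u := by
    intro i hi
    have h3 : (cM (ρ i) * frobM ρ v).mulVec u = (frobM ρ v).mulVec u := by rw [hin i hi]
    rw [← Matrix.mulVec_mulVec, h, Matrix.mulVec_smul] at h3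
    exact smul_right_injective _ hl h3
  have heq : ∀ σ : FrobSet v, (cM (ρ σ.1)).mulVec u = (cM (ρ σ₀)).mulVec u := by
    intro σ
    have h3 : ∀ x : 𝓞 K, (σ₀⁻¹ * σ.1) • x - x ∈ v.asIdeal := by
      intro x
      have h4 := v.asIdeal.sub_mem ((frob_iff hp hv σ.1).1 σ.2 x) ((frob_iff hp hv σ₀).1 hσ₀ x)
      rw [sub_sub_sub_cancel_right] at h4
      have h5 : σ₀⁻¹ • (σ.1 • x - σ₀ • x) ∈ v.asIdeal := by
        have h6 := frob_stab hσ₀
        rw [← h6]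
        have h7 : (σ.1 • x - σ₀ • x) ∈ σ₀ • v.asIdeal := by rw [h6]; exact h4
        rw [Ideal.mem_pointwise_smul_iff_inv_smul_mem] at h7
        rw [h6]
        exact h7
      rw [smul_sub, inv_smul_smul, ← mul_smul] at h5
      exact h5
    have h4 := hfix _ h3
    rw [map_mul, cM_mul, ← Matrix.mulVec_mulVec] at h4
    have h5 : (cM (ρ σ₀)).mulVec ((cM (ρ σ₀⁻¹)).mulVec ((cM (ρ σ.1)).mulVec u)) =
        (cM (ρ σ₀)).mulVec u := by rw [h4]
    rw [Matrix.mulVec_mulVec, ← cM_mul, ← map_mul, mul_inv_cancel, map_one, cM_one,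
      Matrix.one_mulVec] at h5
    exact h5
  rw [← h, hM, Matrix.smul_mulVec, Matrix.sum_mulVec, Finset.sum_congr rfl fun σ _ => heq σ,
    Finset.sum_const, Finset.card_univ, ← Nat.card_eq_fintype_card, ← Nat.cast_smul_eq_nsmul ℂ,
    smul_smul, inv_mul_cancel₀ hcard, one_smul]

/-- the Euler factor at a ramified prime -/
theorem euler_bad {p : ℕ} (hp : p.Prime) (h1 : p % 3 = 1) {v : HeightOneSpectrum (𝓞 K)}
    (hv : (p : 𝓞 K) ∈ v.asIdeal) : ∃ l : κ → ℂ, (∀ s, euler ρ (E27 ℤ) v s p = (EF l p s)⁻¹) ∧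
      ∀ i, l i = 0 ∨ l i ^ Nat.card (K ≃ₐ[F] K) = 1 := by
  have hp3 : p ≠ 3 := by rintro rfl; norm_num at h1
  obtain ⟨l, hl, hl2⟩ := exists_roots (frobM ρ v)
  refine ⟨l, fun s => ?_, fun i => ?_⟩
  · unfold Pool.Agent.J4.H24.BT.euler Pool.Agent.J4.H24.BT.EF
    rw [if_neg (dvd_disc hp hp3), hl]
  · by_cases h : l i = 0
    · exact Or.inl h
    · right
      obtain ⟨u, hu, hu2⟩ := hl2 i
      obtain ⟨σ, hσ, hσu⟩ := frob_eig ρ hp hv hu hu2 h
      obtain ⟨τ, hτ⟩ := frob_mod1 (F := F) hp hv h1 hσ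
      have h3 : ∀ m : ℕ, (cM (ρ (σ ^ m))).mulVec u = l i ^ m • u := by
        intro m
        induction m with
        | zero => rw [pow_zero, map_one, cM_one, Matrix.one_mulVec, pow_zero, one_smul]
        | succ m ih =>
          rw [pow_succ, map_mul, cM_mul, ← Matrix.mulVec_mulVec, hσu, Matrix.mulVec_smul, ih,
            smul_smul, pow_succ, mul_comm]
      have h4 := h3 (Nat.card (K ≃ₐ[F] K))
      rw [← hτ, ← map_pow, pow_card_eq_one', map_one, map_one, cM_one, Matrix.one_mulVec] at h4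
      have h5 : (l i ^ Nat.card (K ≃ₐ[F] K) - 1) • u = 0 := by
        rw [sub_smul, ← h4, one_smul, sub_self]
      exact sub_eq_zero.1 ((smul_eq_zero.1 h5).resolve_right hu)

end bad

end Pool.Agent.J4.H54.QT
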