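import Pool.Agent.J4.H54.QT.Grp

/-!
# The traces of the irreducible two-dimensional representations
-/

set_option autoImplicit false
set_option linter.unusedSectionVars false

namespace Pool.Agent.J4.H54.QT

open Pool.Agent.J4.H24.BT (cM cM_mul cM_one Eig det_eig exists_eig)

section

variable {A U : Type} [CommGroup A] [Finite A] [Group U] {j : A →* U} {t : U} {e : A ≃* A} {s : A}
  {ρ : U →* GL (Fin 2) ℂ}

/-- a line that is stable under the subgroup and one more element is stable -/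
lemma Ix.stable (I : Ix j t e s) {v : Fin 2 → ℂ} (hA : ∀ a, ∃ c : ℂ, (cM (ρ (j a))).mulVec v = c • v)
    {u : U} (hu : ∀ a, u ≠ j a) (h : ∃ c : ℂ, (cM (ρ u)).mulVec v = c • v) (w : U) :
    ∃ c : ℂ, (cM (ρ w)).mulVec v = c • v := by
  rcases I.cov w with ⟨a, rfl⟩ | ⟨a, rfl⟩
  · exact hA a
  · rcases I.cov u with ⟨a', ha'⟩ | ⟨a', rfl⟩
    · exact absurd ha' (hu a')
    · have e1 : j a * t = j (a * a'⁻¹) * (j a' * t) := by
        rw [← mul_assoc, ← map_mul, inv_mul_cancel_right]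
      obtain ⟨c1, h1⟩ := h
      obtain ⟨c2, h2⟩ := hA (a * a'⁻¹)
      refine ⟨c1 * c2, ?_⟩
      rw [e1, map_mul, cM_mul, ← Matrix.mulVec_mulVec, h1, Matrix.mulVec_smul, h2, smul_smul]

/-- **the trace vanishes outside of the subgroup** -/
theorem Ix.irr_trace (I : Ix j t e s)
    (hirr : ∀ v : Fin 2 → ℂ, v ≠ 0 → ∃ u, ∀ c : ℂ, (cM (ρ u)).mulVec v ≠ c • v) (u : U)
    (hu : ∀ a, u ≠ j a) : (cM (ρ u)).trace = 0 := by
  classical
  obtain ⟨b, χ, hb⟩ := exists_eig (ρ.comp j)
  have hb' : ∀ a i, (cM (ρ (j a))).mulVec (b i) = χ i a • b i := fun a i => hb a i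
  have hno : ∀ v : Fin 2 → ℂ, v ≠ 0 → (∀ a, ∃ c : ℂ, (cM (ρ (j a))).mulVec v = c • v) →
      ¬ ∃ c : ℂ, (cM (ρ u)).mulVec v = c • v := by
    intro v hv hA h
    obtain ⟨w, hw⟩ := hirr v hv
    obtain ⟨c, hc⟩ := I.stable hA hu h w
    exact hw c hc
  by_cases hχ : χ 0 = χ 1
  · exfalso
    obtain ⟨l, -, hl⟩ := exists_roots (cM (ρ u))
    obtain ⟨v, hv, hv2⟩ := hl 0
    refine hno v hv (fun a => ⟨χ 0 a, ?_⟩) ⟨_, hv2⟩
    have h1 : v = b.repr v 0 • b 0 + b.repr v 1 • b 1 := by
      conv_lhs => rw [← b.sum_repr v, Fin.sum_univ_two]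
    rw [h1, Matrix.mulVec_add, Matrix.mulVec_smul, Matrix.mulVec_smul, hb', hb', ← hχ, smul_add,
      smul_comm, smul_comm (χ 0 a) (b.repr v 1)]
  · obtain ⟨a0, ha0⟩ : ∃ a, χ 0 a ≠ χ 1 a := by
      by_contra hcon
      push Not at hcon
      exact hχ (MulChar.ext fun x => hcon x)
    have hne : ∀ i k : Fin 2, i ≠ k → χ i a0 ≠ χ k a0 := by
      intro i k hik
      fin_cases i <;> fin_cases k
      · exact absurd rfl hik
      · exact ha0
      · exact fun h => ha0 h.symm
      · exact absurd rfl hik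
    have hsum : ∀ (v : Fin 2 → ℂ) (i k : Fin 2), i ≠ k → v = b.repr v i • b i + b.repr v k • b k := by
      intro v i k hik
      conv_lhs => rw [← b.sum_repr v, Fin.sum_univ_two]
      fin_cases i <;> fin_cases k
      · exact absurd rfl hik
      · rfl
      · exact add_comm _ _
      · exact absurd rfl hik
    -- an element of the subgroup conjugate to `a0`
    obtain ⟨a1, ha1⟩ : ∃ a1, j a0 * u = u * j a1 := by
      rcases I.cov u with ⟨a', ha'⟩ | ⟨a', rfl⟩
      · exact absurd ha' (hu a')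
      · refine ⟨e a0, ?_⟩
        rw [mul_assoc, I.comm, I.invol, ← mul_assoc, ← mul_assoc, ← map_mul, ← map_mul, mul_comm a0]
    have hrep : ∀ (y : Fin 2 → ℂ) (m : Fin 2),
        b.repr ((cM (ρ (j a0))).mulVec y) m = χ m a0 * b.repr y m := by
      intro y m
      conv_lhs => rw [← b.sum_repr y]
      rw [Fin.sum_univ_two, Matrix.mulVec_add, Matrix.mulVec_smul, Matrix.mulVec_smul, hb', hb',
        map_add, map_smul, map_smul, map_smul, map_smul, b.repr_self, b.repr_self]
      fin_cases m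
      · simp [mul_comm]
      · simp [mul_comm]
    have hdiag : ∀ i : Fin 2, b.repr ((cM (ρ u)).mulVec (b i)) i = 0 := by
      intro i
      by_contra hy
      obtain ⟨k, hk⟩ : ∃ k : Fin 2, i ≠ k := by
        fin_cases i
        · exact ⟨1, by decide⟩
        · exact ⟨0, by decide⟩
      set y := (cM (ρ u)).mulVec (b i) with hyd
      have h1 : (cM (ρ (j a0))).mulVec y = χ i a1 • y := by
        rw [hyd, Matrix.mulVec_mulVec, ← cM_mul, ← map_mul, ha1, map_mul, cM_mul,
          ← Matrix.mulVec_mulVec, hb', Matrix.mulVec_smul]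
      have h2 : ∀ m, (χ m a0 - χ i a1) * b.repr y m = 0 := by
        intro m
        rw [sub_mul, ← hrep, h1, map_smul, Finsupp.smul_apply, smul_eq_mul, sub_self]
      have h3 : χ i a0 = χ i a1 := sub_eq_zero.1 ((mul_eq_zero.1 (h2 i)).resolve_right hy)
      have h4 : b.repr y k = 0 := by
        refine (mul_eq_zero.1 (h2 k)).resolve_left fun h5 => hne i k hk ?_
        rw [h3]
        exact (sub_eq_zero.1 h5).symm
      refine hno (b i) (b.ne_zero i) (fun a => ⟨χ i a, hb' a i⟩) ⟨b.repr y i, ?_⟩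
      rw [← hyd]
      conv_lhs => rw [hsum y i k hk, h4, zero_smul, add_zero]
    have h5 : LinearMap.trace ℂ (Fin 2 → ℂ) (Matrix.toLin' (cM (ρ u))) = (cM (ρ u)).trace := by
      rw [LinearMap.trace_eq_matrix_trace ℂ (Pi.basisFun ℂ (Fin 2)), LinearMap.toMatrix_eq_toMatrix',
        LinearMap.toMatrix'_toLin']
    rw [← h5, LinearMap.trace_eq_matrix_trace ℂ b, Matrix.trace]
    refine Finset.sum_eq_zero fun i _ => ?_
    rw [Matrix.diag_apply, LinearMap.toMatrix_apply, Matrix.toLin'_apply]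
    exact hdiag i

end

end Pool.Agent.J4.H54.QT
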