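import Pool.Agent.J4.H54.QT.An
import Pool.Agent.J4.H54.QT.Irr
import Pool.Agent.R430.T1
import Pool.Agent.J4.H24.BT.Fin

/-!
# The `L`-functions of the representations which are induced from a quadratic extension of `ℚ(√-3)`
-/

set_option autoImplicit false
set_option linter.unusedSectionVars false

namespace Pool.Agent.J4.H54.QT

open NumberField IsDedekindDomain

open Pool.Agent.Y696 Pool.Agent.W192.HK Pool.Agent.TH936.CM Pool.Agent.TH936.PU

open Pool.Agent.R430 (DatI xI xI_pos xI_neg prime_cop_iff GoodRam ArtinMap Hyp exists_Nc IsArt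
  isArt_sq isArt_of_map Nc_absNorm gal2 deg4 exists_sqrt3 exists_DN unr_of_in comm_of_sq
  card_pow_of_sq datI_of good_Nc all_K BI BI_hp BI_diff BI_val iE exists_emN base_valI art_base
  xI_ic IC Reps exists_reps RRe)

open Pool.Agent.J4.H24.BT (cM cM_mul cM_one Eig det_eig exists_eig frobM euler)

section

variable {F N K : Type} [Field F] [NumberField F] [IsCyclotomicExtension {3} ℚ F]
  [Field N] [NumberField N] [Algebra F N] [Field K] [NumberField K] [Algebra N K]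

/-- the Artin map and the bad primes -/
lemma exists_art [IsGalois N K] (h2 : Module.finrank F N = 2) (hgN : GoodRam F N) (h : Hyp N K) :
    ∃ (k : ℕ) (n : ℕ) (Φ : Ideal (𝓞 N) → Gal(K/N)), Module.finrank N K = 2 ^ k ∧
      (∀ σ τ : Gal(K/N), σ * τ = τ * σ) ∧ Nc n ∧ IsArt n Φ := by
  have hgal : IsGalois F N := gal2 h2
  rcases h with ⟨hgK, hsq⟩ | ⟨⟨k, hk⟩, hcomm, 𝔪, h0, hg, Φ, hΦ⟩
  · obtain ⟨n0, hn0, hun0⟩ := exists_Nc hgN
    obtain ⟨n, hn, hun⟩ := exists_Nc hgK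
    have hcomm : ∀ σ τ : Gal(K/N), σ * τ = τ * σ := comm_of_sq hsq
    obtain ⟨k, hk⟩ := card_pow_of_sq hsq
    have hk' : Module.finrank N K = 2 ^ k := by
      rw [← hk]
      exact (IsGalois.card_aut_eq_finrank N K).symm
    have hodd : Odd n := by
      rw [← Nat.not_even_iff_odd]
      intro he
      have := hn.coprime.1
      rw [Nat.coprime_two_right] at this
      exact (Nat.not_even_iff_odd.2 this) he
    obtain ⟨a, ha⟩ := exists_sqrt3 (F0 := F)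
    obtain ⟨δ, hδ⟩ := exists_DN (F0 := F) (N := N) h2
    have hU : Unr F N := unr_of_in (n := n0) (fun v₀ hv x => hn0.cube v₀ hv x) hun0
    have hGN : Gn N := Gn.of (F := F) (n := 1) (by rw [h2, pow_one]) hU
    have hA := isArt_sq (a := algebraMap F N a) (by rw [← map_pow, ha, map_neg, map_ofNat])
      (r := 2) (by rw [deg4 (F0 := F) h2]) hδ (fun v hv => hGN.two v (by exact_mod_cast hv)) hcomm hsq hodd hun
    exact ⟨k, n, _, hk', hcomm, hn, hA⟩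
  · exact ⟨k, _, Φ, hk, hcomm, Nc_absNorm hg h0, isArt_of_map hΦ⟩

variable [Algebra F K] [IsScalarTower F N K] [IsGalois ℚ K]

/-- **the analytic part** -/
theorem analytic_part (h2 : Module.finrank F N = 2) (hgN : GoodRam F N) (h : Hyp N K)
    {κ : Type} [Fintype κ] [DecidableEq κ] (ρ : (K ≃ₐ[ℚ] K) →* GL κ ℂ)
    (htr : ∀ σ : K ≃ₐ[ℚ] K, (∀ x : F, σ (algebraMap F K x) = algebraMap F K x) →
      ¬ (∀ x : N, σ (algebraMap N K x) = algebraMap N K x) → (cM (ρ σ)).trace = 0) :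
    Even (Fintype.card κ) ∧ ∃ L : ℂ → ℂ, MeromorphicOn L Set.univ ∧
      (∀ V : Nat.Primes → HeightOneSpectrum (𝓞 K),
        (∀ p : Nat.Primes, ((p : ℕ) : 𝓞 K) ∈ (V p).asIdeal) → ∀ s : ℂ, 3 / 2 < s.re →
        HasProd (fun p : Nat.Primes => euler ρ (E27 ℤ) (V p) s p) (L s)) ∧
      AnalyticAt ℂ L 1 ∧ L 1 ≠ 0 ∧
      ∀ (Λ : PeriodPair) (Ω : ℂ), Cur Λ Ω → ((starRingEnd ℂ) Ω) ^ 6 = Ω ^ 6 →
        ∀ (Γ : Type) [LinearOrderedCommGroupWithZero Γ] (w : Valuation ℂ Γ), w 2 < 1 →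
          w (L 1) = w Ω ^ Fintype.card κ := by
  classical
  have hgal : IsGalois F N := gal2 h2
  have hgalK : IsGalois F K := IsGalois.tower_top_of_isGalois ℚ F K
  have hgalNK : IsGalois N K := IsGalois.tower_top_of_isGalois ℚ N K
  obtain ⟨k, n1, Φ, hk, hcomm, hn1, hA⟩ := exists_art h2 hgN h
  obtain ⟨n0, hn0, hun0⟩ := exists_Nc hgN
  obtain ⟨c0, art0, hA0, hc0⟩ := art_base h2 hn0 hun0
  -- the modulus
  have hne : ∀ m : ℕ, Nc m → m ≠ 0 := by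
    rintro m hm rfl
    exact hm 2 Nat.prime_two (dvd_zero _) 0 (by decide)
  set n : ℕ := 7 * n0 * n1 with hnd
  have hn : Nc n := by
    intro q hq hd
    rcases (Nat.Prime.dvd_mul hq).1 hd with h | h
    · rcases (Nat.Prime.dvd_mul hq).1 h with h | h
      · have : q = 7 := (Nat.prime_dvd_prime_iff_eq hq (by norm_num)).1 h
        subst this
        decide
      · exact hn0 q hq h
    · exact hn1 q hq h
  have hno : Odd n := by
    rw [← Nat.not_even_iff_odd]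
    intro he
    have := hn.coprime.1
    rw [Nat.coprime_two_right] at this
    exact (Nat.not_even_iff_odd.2 this) he
  let _ : CommGroup (K ≃ₐ[N] K) := { (inferInstance : Group (K ≃ₐ[N] K)) with mul_comm := hcomm }
  have hn0' := hne n0 hn0
  have hn1' := hne n1 hn1
  have D := datI_of hA hn1' (m := 7 * n0) (by omega) (by
    intro h1
    have h3 : 7 ∣ 1 := ⟨n0 * n1, by rw [← mul_assoc]; exact h1.symm⟩
    norm_num at h3) hcomm
  have hG : Nat.card (K ≃ₐ[N] K) = 2 ^ k := by rw [← hk]; exact IsGalois.card_aut_eq_finrank N K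
  -- the group
  obtain ⟨t, e, s, hI, hrt⟩ := exists_Ix (F := F) (K := K) h2 hcomm
  -- the ring homomorphism
  obtain ⟨ζ, hζ⟩ := IsCyclotomicExtension.exists_isPrimitiveRoot ℚ F
    (Set.mem_singleton 3) (by norm_num)
  obtain ⟨σ, hσ⟩ := exists_emb hζ
  let e0 : 𝓞 F ≃+* eis := isoE hζ σ hσ
  let ι1 : eis →+* 𝓞 N := (algebraMap (𝓞 F) (𝓞 N)).comp (e0.symm : eis →+* 𝓞 F)
  let ι : Pool.Agent.Y688.RR →+* 𝓞 N :=
    ι1.comp (RingEquiv.subringCongr RR_eis : Pool.Agent.Y688.RR →+* eis)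
  have hι : ∀ y : 𝓞 F, iE ι (e0 y) = algebraMap (𝓞 F) (𝓞 N) y := by
    intro y
    have h1 : iE ι (e0 y) = ι1 (e0 y) := by
      show ι1 _ = ι1 _
      congr 1
    rw [h1]
    show algebraMap (𝓞 F) (𝓞 N) (e0.symm (e0 y)) = _
    rw [e0.symm_apply_apply]
  have T : Twr (N := N) (jj F N K) t e s n Φ :=
    { act := fun a x => rfl
      ix := hI
      r1 := fun a => (rr_one_iff _).2 ⟨a, rfl⟩
      rt := hrt
      dat := D
      unrN := fun P hP τ hτ => hun0 P (fun h1 => hP (by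
        have h3 : (n : 𝓞 N) = (n0 : 𝓞 N) * ((7 * n1 : ℕ) : 𝓞 N) := by
          rw [hnd]
          push_cast
          ring
        rw [h3]
        exact P.asIdeal.mul_mem_right _ h1)) τ hτ }
  -- the characters
  obtain ⟨b, χ, hb⟩ := exists_eig ((ρ.comp (Pool.Agent.R431.B.inc F K)).comp (jj F N K))
  have htr' : ∀ u : K ≃ₐ[F] K, (∀ a, u ≠ jj F N K a) →
      (cM (ρ (Pool.Agent.R431.B.inc F K u))).trace = 0 := by
    intro u hu
    refine htr _ (fun x => u.commutes x) fun h3 => ?_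
    obtain ⟨a, ha⟩ := (jj_iff (N := N) u).2 h3
    exact hu a ha
  obtain ⟨κ', hκ', c, hc⟩ := hI.exists_chars (ρ := ρ.comp (Pool.Agent.R431.B.inc F K)) hb
    (fun a => htr' _ fun a' h3 => by
      have h4 : t * jj F N K a = jj F N K (e a) * t := hI.comm a
      exact hI.out' a' (e a) (h3.symm.trans h4))
  have R : Rp (jj F N K) e ρ b χ c := ⟨hb, htr', hc⟩
  -- the functions
  have h4 := deg4 (F0 := F) h2
  have hU : Unr F N := unr_of_in (n := n0) (fun v₀ hv x => hn0.cube v₀ hv x) hun0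
  have hGN : Gn N := Gn.of (F := F) (n := 1) (by rw [h2, pow_one]) hU
  obtain ⟨τ1, τ2, hEm⟩ := exists_emN ι h4
  obtain ⟨u0, p, q, g⟩ := hEm.exists_gen h4
  obtain ⟨η, hη, hQ, m, hm, hcard⟩ := g.exists_eta h4 hGN.two
  obtain ⟨a, ha⟩ := exists_reps (N := N) (n := 6 * n) (by
    have := hne n hn
    omega)
  have ha1 : Reps (6 * 1) a := ha.dvd ⟨n, by ring⟩
  have hIC : ∀ i, IC n (xI n Φ (c i)) := fun i => xI_ic D hG (c i)
  have hcardU : Nat.card (K ≃ₐ[F] K) = 2 ^ (k + 1) := by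
    rw [IsGalois.card_aut_eq_finrank F K, ← Module.finrank_mul_finrank F N K, h2, hk, pow_succ,
      mul_comm]
  refine ⟨⟨Fintype.card κ', by rw [R.card]; ring⟩, ?_⟩
  refine an_main T hι h2 R hn hcardU (fun i => BI g η (xI n Φ (c i)) a)
    (fun i => BI_diff g hη (hIC i) hno ha) (fun i s' hs => BI_hp g hη hQ (hIC i) hno ha hs)
    (fun i Λ Ω hC Γ _ w hw => ?_)
  exact BI_val g (HL_of_Cur hC) hw hη hQ hm hcard hGN.two (hIC i) hno ha (good_Nc h2 hn)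
    (fun v' hv' => base_valI g hη hQ hm hcard hGN.two hGN.three ha1 h2
      ⟨hA0.surj, hA0.unr, hA0.frob⟩ hc0 hC v' hv')

/-- **everything** -/
theorem main (h2 : Module.finrank F N = 2) (hgN : GoodRam F N) (h : Hyp N K) :
    Finite ((E27 ℤ).map (Int.castRingHom K)).toAffine.Point ∧
    ∀ Rp Cp : ℝ, Rp = 2 * ∫ x in {x : ℝ | 0 < Pool.Agent.R431.B.Per.cubic (E27 ℤ) x}, 1 / Real.sqrt (Pool.Agent.R431.B.Per.cubic (E27 ℤ) x) →
      Cp = 2 * (2 * ∫ x : ℂ, 1 / ‖Pool.Agent.R431.B.Per.cubic (E27 ℤ) x‖) → 0 < Rp ∧ 0 < Cp ∧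
    ∀ (κ : Type) [Fintype κ] [DecidableEq κ] (ρ : (K ≃ₐ[ℚ] K) →* GL κ ℂ),
      (∀ σ : K ≃ₐ[ℚ] K, (∀ x : F, σ (algebraMap F K x) = algebraMap F K x) →
        ¬ (∀ x : N, σ (algebraMap N K x) = algebraMap N K x) → (cM (ρ σ)).trace = 0) →
    Even (Fintype.card κ) ∧ ∃ L : ℂ → ℂ, MeromorphicOn L Set.univ ∧
      (∀ V : Nat.Primes → HeightOneSpectrum (𝓞 K),
        (∀ p : Nat.Primes, ((p : ℕ) : 𝓞 K) ∈ (V p).asIdeal) → ∀ s : ℂ, 3 / 2 < s.re →
        HasProd (fun p : Nat.Primes => euler ρ (E27 ℤ) (V p) s p) (L s)) ∧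
      AnalyticAt ℂ L 1 ∧ L 1 ≠ 0 ∧
      ∀ (Γ : Type) [LinearOrderedCommGroupWithZero Γ] (w : Valuation ℂ Γ), w 2 < 1 →
        ∀ a b : ℕ, a + b = Fintype.card κ → w (L 1 / ((Rp ^ a * (Cp / Rp) ^ b : ℝ) : ℂ)) = 1 := by
  have hgalNK : IsGalois N K := IsGalois.tower_top_of_isGalois ℚ N K
  have hfin : Finite ((E27 ℤ).map (Int.castRingHom K)).toAffine.Point := by
    rw [Pool.Agent.R431.B.map27]
    exact (all_K h2 hgN h).finite
  refine ⟨hfin, fun Rp Cp hRp hCp => ?_⟩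
  obtain ⟨Ω₀, hΩ₀, hC₀⟩ := exists_cur
  obtain ⟨Ω, hC, hΩ⟩ := Pool.Agent.R431.B.exists_om hC₀.g2 hC₀.g3
  obtain ⟨U, hU⟩ := exists_over_two
  obtain ⟨p1, p2, -, -⟩ := Pool.Agent.R431.B.v_periods (Γ := U.ValueGroup) (v := U.valuation) hU hC
    hΩ hRp hCp
  refine ⟨p1, p2, fun κ _ _ ρ htr => ?_⟩
  obtain ⟨he, L, l1, l2, l3, l4, l5⟩ := analytic_part h2 hgN h ρ htr
  refine ⟨he, L, l1, l2, l3, l4, fun Γ _ w hw a b hab => ?_⟩
  obtain ⟨-, -, p3, p4⟩ := Pool.Agent.R431.B.v_periods hw hC hΩ hRp hCp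
  have h6 : w Ω ≠ 0 := (Valuation.ne_zero_iff _).2 hC.lat.ne
  have h7 : ((Rp ^ a * (Cp / Rp) ^ b : ℝ) : ℂ) = (Rp : ℂ) ^ a * ((Cp / Rp : ℝ) : ℂ) ^ b := by
    push_cast
    rfl
  rw [map_div₀, l5 _ Ω hC hΩ Γ w hw, h7, map_mul, map_pow, map_pow, p3, p4, ← pow_add, hab]
  exact div_self (pow_ne_zero _ h6)

/-- **the traces of the representations which are irreducible over `F`** -/
theorem irr_tr [IsGalois N K] (h2 : Module.finrank F N = 2) (h : Hyp N K)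
    (ρ : (K ≃ₐ[ℚ] K) →* GL (Fin 2) ℂ)
    (hirr : ∀ v : Fin 2 → ℂ, v ≠ 0 → ∃ σ : K ≃ₐ[ℚ] K,
      (∀ x : F, σ (algebraMap F K x) = algebraMap F K x) ∧
        ∀ c : ℂ, (cM (ρ σ)).mulVec v ≠ c • v) (σ : K ≃ₐ[ℚ] K)
    (hF : ∀ x : F, σ (algebraMap F K x) = algebraMap F K x)
    (hN : ¬ (∀ x : N, σ (algebraMap N K x) = algebraMap N K x)) : (cM (ρ σ)).trace = 0 := by
  have hgal : IsGalois F N := gal2 h2
  have hgalK : IsGalois F K := IsGalois.tower_top_of_isGalois ℚ F K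
  have hcomm : ∀ σ τ : K ≃ₐ[N] K, σ * τ = τ * σ := by
    rcases h with ⟨-, hsq⟩ | ⟨-, hcomm, -⟩
    · exact comm_of_sq hsq
    · exact hcomm
  let _ : CommGroup (K ≃ₐ[N] K) := { (inferInstance : Group (K ≃ₐ[N] K)) with mul_comm := hcomm }
  obtain ⟨t, e, s, hI, -⟩ := exists_Ix (F := F) (K := K) h2 hcomm
  have hlift : ∀ τ : K ≃ₐ[ℚ] K, (∀ x : F, τ (algebraMap F K x) = algebraMap F K x) →
      ∃ u : K ≃ₐ[F] K, Pool.Agent.R431.B.inc F K u = τ := by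
    intro τ hτ
    refine ⟨AlgEquiv.ofRingEquiv (f := (τ : K ≃+* K)) hτ, ?_⟩
    apply AlgEquiv.ext
    intro x
    rfl
  obtain ⟨u, rfl⟩ := hlift σ hF
  refine hI.irr_trace (ρ := ρ.comp (Pool.Agent.R431.B.inc F K)) (fun v hv => ?_) u fun a ha => hN ?_
  · obtain ⟨τ, hτ, hτ2⟩ := hirr v hv
    obtain ⟨w, rfl⟩ := hlift τ hτ
    exact ⟨w, hτ2⟩
  · exact (jj_iff (N := N) u).1 ⟨a, ha⟩

end

end Pool.Agent.J4.H54.QT
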