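import Pool.Agent.J4.H54.QT.Grp
import Pool.Agent.R430.B13
import Pool.Agent.R431.B.Frb

/-!
# The Frobenius automorphisms of the tower and the local factors over the Eisenstein integers
-/

set_option autoImplicit false
set_option linter.unusedSectionVars false

namespace Pool.Agent.J4.H54.QT

open NumberField IsDedekindDomain

open Pool.Agent.Y696 Pool.Agent.W192.HK Pool.Agent.TH936.CM Pool.Agent.TH936.PU

open Pool.Agent.R430 (DatI xI xI_pos xI_neg prime_cop_iff)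

open Pool.Agent.J4.H24.BT (cM cM_mul cM_one Eig det_eig exists_eig)

section mv

variable {R : Type} [CommRing R] [IsDedekindDomain R] {G : Type} [Group G] [MulSemiringAction G R]

/-- the image of a prime under an automorphism -/
noncomputable def mv (g : G) (v : HeightOneSpectrum R) : HeightOneSpectrum R where
  asIdeal := v.asIdeal.comap (MulSemiringAction.toRingHom G R g⁻¹)
  isPrime := inferInstance
  ne_bot := by
    intro h
    obtain ⟨x, hx, hx0⟩ := Submodule.exists_mem_ne_zero_of_ne_bot v.ne_bot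
    have h1 : g • x ∈ v.asIdeal.comap (MulSemiringAction.toRingHom G R g⁻¹) := by
      show g⁻¹ • (g • x) ∈ v.asIdeal
      rw [inv_smul_smul]
      exact hx
    rw [h, Ideal.mem_bot] at h1
    apply hx0
    rw [← inv_smul_smul g x, h1, smul_zero]

lemma mem_mv (g : G) (v : HeightOneSpectrum R) (x : R) :
    x ∈ (mv g v).asIdeal ↔ g⁻¹ • x ∈ v.asIdeal := Iff.rfl

/-- the Frobenius automorphism of the image -/
lemma frob_mv {g σ : G} {v : HeightOneSpectrum R} {q : ℕ}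
    (h : ∀ x : R, σ • x - x ^ q ∈ v.asIdeal) (x : R) :
    (g * σ * g⁻¹) • x - x ^ q ∈ (mv g v).asIdeal := by
  rw [mem_mv, smul_sub, smul_pow', ← mul_smul]
  have e : g⁻¹ * (g * σ * g⁻¹) = σ * g⁻¹ := by group
  rw [e, mul_smul]
  exact h _

end mv

section low

variable {F N : Type} [Field F] [NumberField F] [Field N] [NumberField N] [Algebra F N]
  [IsGalois F N] {e0 : 𝓞 F ≃+* eis} {ι : eis →+* 𝓞 N}

lemma fixN (hι : ∀ y : 𝓞 F, ι (e0 y) = algebraMap (𝓞 F) (𝓞 N) y) (τ : N ≃ₐ[F] N) (x : eis) :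
    τ • ι x = ι x := by
  rw [← e0.apply_symm_apply x, hι]
  exact smul_algebraMap τ _

lemma invN (hι : ∀ y : 𝓞 F, ι (e0 y) = algebraMap (𝓞 F) (𝓞 N) y) (b : 𝓞 N)
    (hb : ∀ τ : N ≃ₐ[F] N, τ • b = b) : ∃ a : eis, ι a = b := by
  obtain ⟨a, ha⟩ := Algebra.IsInvariant.isInvariant (A := 𝓞 F) (G := N ≃ₐ[F] N) b hb
  exact ⟨e0 a, by rw [hι, ha]⟩

/-- the splitting of the primes -/
theorem split_low (hι : ∀ y : 𝓞 F, ι (e0 y) = algebraMap (𝓞 F) (𝓞 N) y)
    (h2 : Module.finrank F N = 2) {P : HeightOneSpectrum (𝓞 N)}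
    (hun : ∀ τ : N ≃ₐ[F] N, (∀ x : 𝓞 N, τ • x - x ∈ P.asIdeal) → τ = 1) {σ : N ≃ₐ[F] N}
    (hσ : ∀ x : 𝓞 N, σ • x - x ^ Nat.card (eis ⧸ (bel ι P).asIdeal) ∈ P.asIdeal) :
    nK P = Nat.card (eis ⧸ (bel ι P).asIdeal) ^ orderOf σ ∧
    Fintype.card {P' : HeightOneSpectrum (𝓞 N) // bel ι P' = bel ι P} * orderOf σ = 2 := by
  classical
  let _ : Algebra eis (𝓞 N) := ι.toAlgebra
  have halg : ∀ a : eis, algebraMap eis (𝓞 N) a = ι a := fun _ => rfl
  have hcomm : SMulCommClass (N ≃ₐ[F] N) eis (𝓞 N) := by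
    constructor
    intro g a x
    rw [Algebra.smul_def, Algebra.smul_def, halg, smul_mul', fixN hι]
  have hinv : Algebra.IsInvariant eis (𝓞 N) (N ≃ₐ[F] N) := ⟨fun b hb => invN hι b hb⟩
  have hpmax : (bel ι P).asIdeal.IsMaximal := (bel ι P).isPrime.isMaximal (bel ι P).ne_bot
  have hvmax : P.asIdeal.IsMaximal := P.isPrime.isMaximal P.ne_bot
  have hover : P.asIdeal.LiesOver (bel ι P).asIdeal := ⟨rfl⟩
  have hfv : Finite (𝓞 N ⧸ P.asIdeal) := Ideal.finiteQuotientOfFreeOfNeBot P.asIdeal P.ne_bot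
  have hfp : Finite (eis ⧸ (bel ι P).asIdeal) := by
    rw [gP_span]
    exact finite_q (gP_ne _)
  have h5 := Pool.Agent.W164.RC.split_abs (N ≃ₐ[F] N) (bel ι P).asIdeal P.asIdeal hun σ hσ
  refine ⟨by rw [← card_nm]; exact h5.1, ?_⟩
  rw [card_two (F := F) (N := N) h2] at h5
  rw [← h5.2]
  congr 1
  rw [← Nat.card_eq_fintype_card, ← Nat.card_coe_set_eq]
  refine Nat.card_congr
    { toFun := fun v => ⟨v.1.asIdeal, v.1.isPrime,
        ⟨(congrArg HeightOneSpectrum.asIdeal v.2).symm⟩⟩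
      invFun := fun Q => ⟨⟨Q.1, Q.2.1, ?_⟩, ?_⟩
      left_inv := fun v => rfl
      right_inv := fun Q => rfl }
  · intro hbot
    have h6 := Q.2.2.over
    rw [hbot] at h6
    apply (bel ι P).ne_bot
    rw [h6]
    exact (RingHom.injective_iff_ker_eq_bot ι).1 (ι_inj ι)
  · apply HeightOneSpectrum.ext
    exact Q.2.2.over.symm

/-- the primes over a prime -/
lemma over_low (hι : ∀ y : 𝓞 F, ι (e0 y) = algebraMap (𝓞 F) (𝓞 N) y)
    {P P' : HeightOneSpectrum (𝓞 N)} (h : bel ι P' = bel ι P) :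
    ∃ τ : N ≃ₐ[F] N, P' = mv τ P := by
  let _ : Algebra eis (𝓞 N) := ι.toAlgebra
  have halg : ∀ a : eis, algebraMap eis (𝓞 N) a = ι a := fun _ => rfl
  have hcomm : SMulCommClass (N ≃ₐ[F] N) eis (𝓞 N) := by
    constructor
    intro g a x
    rw [Algebra.smul_def, Algebra.smul_def, halg, smul_mul', fixN hι]
  have hinv : Algebra.IsInvariant eis (𝓞 N) (N ≃ₐ[F] N) := ⟨fun b hb => invN hι b hb⟩
  have := P.isPrime
  have := P'.isPrime
  obtain ⟨g, hg⟩ := Algebra.IsInvariant.exists_smul_of_under_eq eis (𝓞 N) (N ≃ₐ[F] N) P.asIdeal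
    P'.asIdeal (congrArg HeightOneSpectrum.asIdeal h).symm
  refine ⟨g, ?_⟩
  apply HeightOneSpectrum.ext
  ext x
  rw [hg, mem_mv, Ideal.mem_pointwise_smul_iff_inv_smul_mem]

end low

section up

variable {F N K : Type} [Field F] [NumberField F] [Field N] [NumberField N] [Algebra F N]
  [Field K] [NumberField K] [Algebra N K] [Algebra F K] [IsScalarTower F N K]
  [IsGalois F N] {e0 : 𝓞 F ≃+* eis} {ι : eis →+* 𝓞 N}

lemma rr_smul (u : K ≃ₐ[F] K) (x : 𝓞 N) :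
    algebraMap (𝓞 N) (𝓞 K) (rr (N := N) u • x) = u • algebraMap (𝓞 N) (𝓞 K) x := by
  apply RingOfIntegers.ext
  exact rr_apply u (x : N)

lemma fixK (hι : ∀ y : 𝓞 F, ι (e0 y) = algebraMap (𝓞 F) (𝓞 N) y) (u : K ≃ₐ[F] K) (x : eis) :
    u • algebraMap (𝓞 N) (𝓞 K) (ι x) = algebraMap (𝓞 N) (𝓞 K) (ι x) := by
  rw [← rr_smul, fixN hι]

lemma und_mv (u : K ≃ₐ[F] K) (v : HeightOneSpectrum (𝓞 K)) :
    und (F := N) (mv u v) = mv (rr (N := N) u) (und (F := N) v) := by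
  apply HeightOneSpectrum.ext
  ext x
  rw [mem_und, mem_mv, mem_mv, mem_und, ← map_inv, rr_smul]

lemma mv_one {R : Type} [CommRing R] [IsDedekindDomain R] {G : Type} [Group G]
    [MulSemiringAction G R] (v : HeightOneSpectrum R) : mv (1 : G) v = v := by
  apply HeightOneSpectrum.ext
  ext x
  rw [mem_mv, inv_one, one_smul]

/-- the data of the tower -/
structure Twr {A : Type} [CommGroup A] [MulSemiringAction A (𝓞 K)] (j : A →* (K ≃ₐ[F] K))
    (t : K ≃ₐ[F] K) (e : A ≃* A) (s : A) (n : ℕ) (Φ : Ideal (𝓞 N) → A) : Prop where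
  act : ∀ (a : A) (x : 𝓞 K), j a • x = a • x
  ix : Ix j t e s
  r1 : ∀ a, rr (N := N) (j a) = 1
  rt : rr (N := N) t ≠ 1
  dat : DatI (N := N) (K := K) A n Φ
  unrN : ∀ P : HeightOneSpectrum (𝓞 N), (n : 𝓞 N) ∉ P.asIdeal → ∀ τ : N ≃ₐ[F] N,
    (∀ x : 𝓞 N, τ • x - x ∈ P.asIdeal) → τ = 1

variable {A : Type} [CommGroup A] [Finite A] [MulSemiringAction A (𝓞 K)] {j : A →* (K ≃ₐ[F] K)}
  {t : K ≃ₐ[F] K} {e : A ≃* A} {s : A} {n : ℕ} {Φ : Ideal (𝓞 N) → A}

lemma Twr.rr_iff (T : Twr j t e s n Φ) (u : K ≃ₐ[F] K) : rr (N := N) u = 1 ↔ ∃ a, u = j a := by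
  constructor
  · intro h
    rcases T.ix.cov u with h1 | ⟨a, rfl⟩
    · exact h1
    · rw [map_mul, T.r1, one_mul] at h
      exact absurd h T.rt
  · rintro ⟨a, rfl⟩
    exact T.r1 a

lemma low_smul {v : HeightOneSpectrum (𝓞 K)} {u : K ≃ₐ[F] K} {m : ℕ}
    (h : ∀ x : 𝓞 K, u • x - x ^ m ∈ v.asIdeal) (x : 𝓞 N) :
    rr (N := N) u • x - x ^ m ∈ (und (F := N) v).asIdeal := by
  rw [mem_und, map_sub, rr_smul, map_pow]
  exact h _

lemma Twr.unr (T : Twr j t e s n Φ) {v : HeightOneSpectrum (𝓞 K)} (hv : (n : 𝓞 K) ∉ v.asIdeal)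
    (τ : K ≃ₐ[F] K) (h : ∀ x : 𝓞 K, τ • x - x ∈ v.asIdeal) : τ = 1 := by
  have h1 : rr (N := N) τ = 1 := by
    refine T.unrN (und v) ?_ _ fun x => ?_
    · rw [mem_und, map_natCast]
      exact hv
    · have h2 := low_smul (N := N) (v := v) (u := τ) (m := 1)
        (fun x => by rw [pow_one]; exact h x) x
      rwa [pow_one] at h2
  obtain ⟨a, rfl⟩ := (T.rr_iff τ).1 h1
  rw [T.dat.unr v hv a fun x => by rw [← T.act]; exact h x, map_one]

lemma Twr.uniq (T : Twr j t e s n Φ) {v : HeightOneSpectrum (𝓞 K)} (hv : (n : 𝓞 K) ∉ v.asIdeal)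
    {a b : A} {m : ℕ} (ha : ∀ x : 𝓞 K, a • x - x ^ m ∈ v.asIdeal)
    (hb : ∀ x : 𝓞 K, b • x - x ^ m ∈ v.asIdeal) : a = b := by
  have h1 : a * b⁻¹ = 1 := by
    apply T.dat.unr v hv
    intro x
    have h2 := v.asIdeal.sub_mem (ha (b⁻¹ • x)) (hb (b⁻¹ • x))
    rw [sub_sub_sub_cancel_right, smul_inv_smul, ← mul_smul] at h2
    exact h2
  exact mul_inv_eq_one.1 h1

lemma frob_sq {G : Type} [Group G] [MulSemiringAction G (𝓞 K)] {v : HeightOneSpectrum (𝓞 K)}
    {σ : G} {q : ℕ} (h : ∀ x : 𝓞 K, σ • x - x ^ q ∈ v.asIdeal) (x : 𝓞 K) :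
    (σ * σ) • x - x ^ (q ^ 2) ∈ v.asIdeal := by
  have h5 : (σ • x) ^ q - (x ^ q) ^ q ∈ v.asIdeal :=
    Ideal.mem_of_dvd _ (sub_dvd_pow_sub_pow (σ • x) (x ^ q) q) (h x)
  rw [pow_two q, pow_mul, mul_smul]
  have h6 := v.asIdeal.add_mem (h (σ • x)) h5
  rwa [sub_add_sub_cancel] at h6

lemma HH_val {P : HeightOneSpectrum (𝓞 N)} {f : ℕ}
    (hq : nK P = Nat.card (eis ⧸ (bel ι P).asIdeal) ^ f) (z s' : ℂ) :
    HH ι P z s' = (1 - (psi (bel ι P).asIdeal *
      (Nat.card (eis ⧸ (bel ι P).asIdeal) : ℂ) ^ (-s')) ^ f * z)⁻¹ := by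
  unfold Pool.Agent.Y696.HH Pool.Agent.Y696.pw
  rw [fd_of hq, hq]
  push_cast
  rw [← Complex.natCast_cpow_natCast_mul, Complex.cpow_nat_mul]
  congr 2
  ring

/-- **the local factor over the Eisenstein integers** -/
theorem Twr.fibre [IsGalois F K] (T : Twr j t e s n Φ)
    (hι : ∀ y : 𝓞 F, ι (e0 y) = algebraMap (𝓞 F) (𝓞 N) y) (h2 : Module.finrank F N = 2)
    {κ : Type} [Fintype κ] [DecidableEq κ] {ρ : (K ≃ₐ[F] K) →* GL κ ℂ}
    {b : Module.Basis κ ℂ (κ → ℂ)} {χ : κ → MulChar A ℂ}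
    (hb : ∀ a i, Eig (b i) (cM (ρ (j a))) (χ i a))
    (h0 : ∀ u, (∀ a, u ≠ j a) → (cM (ρ u)).trace = 0) {κ' : Type} [Fintype κ']
    {c : κ' → MulChar A ℂ} (hc : ∀ z : MulChar A ℂ → ℂ,
      (∏ i, z (c i)) * ∏ i, z (tw e (c i)) = ∏ i, z (χ i))
    {v : HeightOneSpectrum (𝓞 K)} (hv : (n : 𝓞 K) ∉ v.asIdeal) {σ : K ≃ₐ[F] K}
    (hσ : ∀ x : 𝓞 K, σ • x - x ^ Nat.card (eis ⧸ (bel ι (und (F := N) v)).asIdeal) ∈ v.asIdeal)
    (s' : ℂ) :
    ∏ P' : {P' : HeightOneSpectrum (𝓞 N) // bel ι P' = bel ι (und (F := N) v)},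
      ∏ i, HH ι P'.1 (xI n Φ (c i) P'.1.asIdeal) s' =
    ((1 - (psi (bel ι (und (F := N) v)).asIdeal *
      (Nat.card (eis ⧸ (bel ι (und (F := N) v)).asIdeal) : ℂ) ^ (-s')) • cM (ρ σ)).det)⁻¹ := by
  classical
  have hnv : ∀ w : HeightOneSpectrum (𝓞 K), (n : 𝓞 K) ∉ w.asIdeal →
      (n : 𝓞 N) ∉ (und (F := N) w).asIdeal := by
    intro w hw
    rw [mem_und, map_natCast]
    exact hw
  have hxI : ∀ (w : HeightOneSpectrum (𝓞 K)), (n : 𝓞 K) ∉ w.asIdeal → ∀ i,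
      xI n Φ (c i) (und (F := N) w).asIdeal = c i (Φ (und (F := N) w).asIdeal) := by
    intro w hw i
    rw [xI_pos]
    rw [prime_cop_iff]
    exact hnv w hw
  set y : ℂ := psi (bel ι (und (F := N) v)).asIdeal *
      (Nat.card (eis ⧸ (bel ι (und (F := N) v)).asIdeal) : ℂ) ^ (-s') with hy
  obtain ⟨hq, hcard⟩ := split_low hι h2 (T.unrN (und v) (hnv v hv)) (low_smul (N := N) hσ)
  have hel := two_elts (card_two (F := F) (N := N) h2) T.rt
  by_cases hs : ∃ a, σ = j a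
  · obtain ⟨a, rfl⟩ := hs
    rw [T.r1, orderOf_one] at hq hcard
    -- the other place
    set w := mv t v with hw
    have hwn : (n : 𝓞 K) ∉ w.asIdeal := by
      rw [hw, mem_mv]
      have : t⁻¹ • (n : 𝓞 K) = n := map_natCast (MulSemiringAction.toRingHom _ (𝓞 K) t⁻¹) n
      rw [this]
      exact hv
    have hbw : bel ι (und (F := N) w) = bel ι (und (F := N) v) := by
      apply HeightOneSpectrum.ext
      ext x
      rw [mem_bel, mem_bel, hw, mem_und, mem_und, mem_mv, fixK hι]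
    have hσw : ∀ x : 𝓞 K, (t * j a * t⁻¹) • x -
        x ^ Nat.card (eis ⧸ (bel ι (und (F := N) w)).asIdeal) ∈ w.asIdeal := by
      rw [hbw]
      exact frob_mv hσ
    obtain ⟨hqw, -⟩ := split_low hι h2 (T.unrN (und w) (hnv w hwn)) (low_smul (N := N) hσw)
    rw [T.ix.conj, T.r1, orderOf_one, pow_one] at hqw
    rw [pow_one] at hq
    have ha : Φ (und (F := N) v).asIdeal = a := by
      refine T.uniq hv (T.dat.frob v hv) fun x => ?_
      rw [hq, ← T.act]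
      exact hσ x
    have ha' : Φ (und (F := N) w).asIdeal = e a := by
      refine T.uniq hwn (T.dat.frob w hwn) fun x => ?_
      rw [hqw, ← T.act, ← T.ix.conj]
      exact hσw x
    have hne : (⟨und v, rfl⟩ : {P' : HeightOneSpectrum (𝓞 N) // bel ι P' = bel ι (und (F := N) v)}) ≠
        ⟨und w, hbw⟩ := by
      intro h
      have h3 : und (F := N) v = mv (rr (N := N) t) (und (F := N) v) := by
        rw [← und_mv]
        exact congrArg Subtype.val h
      have h4 : Fintype.card {P' : HeightOneSpectrum (𝓞 N) // bel ι P' = bel ι (und (F := N) v)} = 1 := by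
        rw [Fintype.card_eq_one_iff]
        refine ⟨⟨und v, rfl⟩, fun P' => Subtype.ext ?_⟩
        obtain ⟨τ, hτ⟩ := over_low hι P'.2
        rcases hel τ with h5 | h5
        · rw [hτ, h5, mv_one]
        · rw [hτ, h5, ← h3]
      rw [h4] at hcard
      omega
    rw [Fintype.prod_eq_mul _ _ hne]
    · rw [Ix.det_in (e := e) hb hc a y, mul_inv, ← Finset.prod_inv_distrib, ← Finset.prod_inv_distrib]
      congr 1
      · refine Finset.prod_congr rfl fun i _ => ?_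
        rw [HH_val (f := 1) (by rw [pow_one]; exact hq), hxI v hv, ha, pow_one]
      · refine Finset.prod_congr rfl fun i _ => ?_
        rw [HH_val (f := 1) (by rw [pow_one]; exact hqw), hxI w hwn, ha', pow_one, hbw]
    · rintro P' ⟨h5, h6⟩
      exfalso
      obtain ⟨τ, hτ⟩ := over_low hι P'.2
      rcases hel τ with h7 | h7
      · apply h5
        apply Subtype.ext
        rw [hτ, h7, mv_one]
      · apply h6
        apply Subtype.ext
        rw [hτ, h7, ← und_mv]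
  · have hr : rr (N := N) σ ≠ 1 := fun h => hs ((T.rr_iff σ).1 h)
    have hr2 : rr (N := N) σ = rr t := (hel _).resolve_left hr
    have hrr : rr (N := N) σ * rr (N := N) σ = 1 := by
      rcases hel (rr (N := N) σ * rr (N := N) σ) with h | h
      · exact h
      · rw [← hr2] at h
        exact absurd (mul_eq_left.1 h) hr
    have hord : orderOf (rr (N := N) σ) = 2 := orderOf_eq_prime (by rw [pow_two]; exact hrr) hr
    rw [hord] at hq hcard
    have hc1 : Fintype.card {P' : HeightOneSpectrum (𝓞 N) // bel ι P' = bel ι (und (F := N) v)} = 1 := by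
      omega
    obtain ⟨a, ha⟩ := (T.rr_iff (σ * σ)).1 (by rw [map_mul]; exact hrr)
    have ha' : Φ (und (F := N) v).asIdeal = a := by
      refine T.uniq hv (T.dat.frob v hv) fun x => ?_
      rw [hq, ← T.act, ← ha]
      exact frob_sq hσ x
    obtain ⟨x₀, hx₀⟩ := Fintype.card_eq_one_iff.1 hc1
    have hu : ∀ f : {P' : HeightOneSpectrum (𝓞 N) // bel ι P' = bel ι (und (F := N) v)} → ℂ,
        ∏ P', f P' = f ⟨und v, rfl⟩ := by
      intro f
      rw [Fintype.prod_eq_single ⟨und v, rfl⟩]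
      intro x hx
      exact absurd ((hx₀ x).trans (hx₀ _).symm) hx
    rw [hu, T.ix.det_out hb h0 hc (fun a h => hs ⟨a, h⟩) ha y, ← Finset.prod_inv_distrib]
    refine Finset.prod_congr rfl fun i _ => ?_
    rw [HH_val hq, hxI v hv, ha']

end up

end Pool.Agent.J4.H54.QT
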