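import Pool.Agent.J4.H54.QT.Det

/-!
# The Galois groups of a tower whose lower step is quadratic
-/

set_option autoImplicit false
set_option linter.unusedSectionVars false

namespace Pool.Agent.J4.H54.QT

open NumberField IsDedekindDomain

section

variable {F N K : Type} [Field F] [NumberField F] [Field N] [NumberField N] [Algebra F N]
  [Field K] [NumberField K] [Algebra N K] [Algebra F K] [IsScalarTower F N K] [IsGalois F K]

variable (F N K) in
/-- the inclusion of the groups -/
noncomputable abbrev jj : (K ≃ₐ[N] K) →* (K ≃ₐ[F] K) := AlgEquiv.restrictScalarsHom F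

omit [NumberField F] [NumberField N] [NumberField K] [IsGalois F K] in
lemma jj_apply (a : K ≃ₐ[N] K) (x : K) : jj F N K a x = a x := rfl

omit [NumberField F] [NumberField N] [NumberField K] [IsGalois F K] in
lemma jj_inj : Function.Injective (jj F N K) := by
  intro σ τ h
  apply AlgEquiv.ext
  intro x
  exact congrArg (fun s : K ≃ₐ[F] K => s x) h

omit [NumberField F] [NumberField N] [NumberField K] [IsGalois F K] in
lemma jj_iff (u : K ≃ₐ[F] K) : (∃ a, u = jj F N K a) ↔
    ∀ x : N, u (algebraMap N K x) = algebraMap N K x := by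
  constructor
  · rintro ⟨a, rfl⟩ x
    exact a.commutes x
  · intro h
    refine ⟨AlgEquiv.ofRingEquiv (f := (u : K ≃+* K)) h, ?_⟩
    apply AlgEquiv.ext
    intro x
    rfl

/-- the restriction to `N` -/
noncomputable def rr [IsGalois F N] : (K ≃ₐ[F] K) →* (N ≃ₐ[F] N) := AlgEquiv.restrictNormalHom N

omit [NumberField F] [NumberField N] [NumberField K] [IsGalois F K] in
lemma rr_apply [IsGalois F N] (u : K ≃ₐ[F] K) (x : N) :
    algebraMap N K (rr u x) = u (algebraMap N K x) := AlgEquiv.restrictNormal_commutes u N x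

omit [NumberField F] [NumberField N] [NumberField K] [IsGalois F K] in
lemma rr_one_iff [IsGalois F N] (u : K ≃ₐ[F] K) : rr (N := N) u = 1 ↔ ∃ a, u = jj F N K a := by
  rw [jj_iff]
  constructor
  · intro h x
    rw [← rr_apply, h]
    rfl
  · intro h
    apply AlgEquiv.ext
    intro x
    apply (algebraMap N K).injective
    rw [rr_apply, h]
    rfl

lemma two_elts {G : Type} [Group G] (h : Nat.card G = 2) {t : G} (ht : t ≠ 1) (g : G) :
    g = 1 ∨ g = t := by
  classical
  have : Finite G := Nat.finite_of_card_ne_zero (by omega)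
  have := Fintype.ofFinite G
  by_contra hc
  push Not at hc
  have h1 : Nat.card G ≥ 3 := by
    rw [Nat.card_eq_fintype_card]
    have h2 : ({1, t, g} : Finset G).card = 3 := by
      rw [Finset.card_eq_three]
      exact ⟨1, t, g, ht.symm, hc.1.symm, hc.2.symm, rfl⟩
    rw [← h2]
    exact Finset.card_le_univ _
  omega

lemma card_two [IsGalois F N] (h2 : Module.finrank F N = 2) : Nat.card (N ≃ₐ[F] N) = 2 := by
  rw [IsGalois.card_aut_eq_finrank, h2]

/-- **the subgroup of index two** -/
theorem exists_Ix [IsGalois F N] (h2 : Module.finrank F N = 2) (hcomm : ∀ σ τ : K ≃ₐ[N] K, σ * τ = τ * σ) :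
    letI : CommGroup (K ≃ₐ[N] K) := { (inferInstance : Group (K ≃ₐ[N] K)) with mul_comm := hcomm }
    ∃ (t : K ≃ₐ[F] K) (e : (K ≃ₐ[N] K) ≃* (K ≃ₐ[N] K)) (s : K ≃ₐ[N] K),
      Ix (jj F N K) t e s ∧ rr (N := N) t ≠ 1 := by
  let _ : CommGroup (K ≃ₐ[N] K) := { (inferInstance : Group (K ≃ₐ[N] K)) with mul_comm := hcomm }
  have hcard := card_two (F := F) (N := N) h2
  have hsurj : Function.Surjective (rr (F := F) (N := N) (K := K)) :=
    AlgEquiv.restrictNormalHom_surjective (F := F) (K₁ := N) (E := K)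
  have hnt : Nontrivial (N ≃ₐ[F] N) := by
    rw [← Finite.one_lt_card_iff_nontrivial, hcard]
    norm_num
  obtain ⟨τ, hτ⟩ := exists_ne (1 : N ≃ₐ[F] N)
  obtain ⟨t, ht⟩ := hsurj τ
  have hrt : rr (N := N) t ≠ 1 := by rw [ht]; exact hτ
  have hel := two_elts hcard hrt
  have hcj : ∀ a : K ≃ₐ[N] K, ∃ a', t * jj F N K a * t⁻¹ = jj F N K a' := by
    intro a
    rw [← rr_one_iff, map_mul, map_mul, (rr_one_iff _).2 ⟨a, rfl⟩, mul_one, ← map_mul,
      mul_inv_cancel, map_one]
  have hcj' : ∀ a : K ≃ₐ[N] K, ∃ a', t⁻¹ * jj F N K a * t = jj F N K a' := by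
    intro a
    rw [← rr_one_iff, map_mul, map_mul, (rr_one_iff _).2 ⟨a, rfl⟩, mul_one, ← map_mul,
      inv_mul_cancel, map_one]
  choose f hf using hcj
  choose g hg using hcj'
  have hfm : ∀ a b, f (a * b) = f a * f b := by
    intro a b
    apply jj_inj (F := F)
    rw [map_mul, ← hf, ← hf, ← hf, map_mul]
    group
  have hgf : ∀ a, g (f a) = a := by
    intro a
    apply jj_inj (F := F)
    rw [← hg, ← hf]
    group
  have hfg : ∀ a, f (g a) = a := by
    intro a
    apply jj_inj (F := F)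
    rw [← hf, ← hg]
    group
  obtain ⟨s, hs⟩ : ∃ s, t * t = jj F N K s := by
    rw [← rr_one_iff, map_mul]
    rcases hel (rr (N := N) t * rr (N := N) t) with h | h
    · exact h
    · exact absurd (mul_eq_left.1 h) hrt
  refine ⟨t, { toFun := f, invFun := g, left_inv := hgf, right_inv := hfg, map_mul' := hfm }, s,
    ⟨jj_inj, fun a ha => hrt ((rr_one_iff t).2 ⟨a, ha.symm⟩), fun u => ?_, hf, hs⟩, hrt⟩
  rcases hel (rr (N := N) u) with h | h
  · exact Or.inl ((rr_one_iff u).1 h)
  · right
    obtain ⟨a, ha⟩ := (rr_one_iff (N := N) (u * t⁻¹)).1 (by rw [map_mul, map_inv, h, mul_inv_cancel])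
    exact ⟨a, by rw [← ha, inv_mul_cancel_right]⟩

end

end Pool.Agent.J4.H54.QT
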